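import Pool.Agent.CS72.Defs

/-!
Cappell–Shaneson matrices, Gompf equivalence, and the linear move on ideals of small norm.
-/

namespace Pool.Agent.CS72

open Matrix

theorem A0_eq : A0 = X 1 1 1 2 := by
  unfold A0 X
  norm_num

/-- characteristic polynomial `x^3 - n x^2 + (n-1) x - 1`. -/
def f (n s : ℤ) : ℤ := s ^ 3 - n * s ^ 2 + (n - 1) * s - 1

/-- homogeneous version. -/
def N (n x y : ℤ) : ℤ := x ^ 3 - n * x ^ 2 * y + (n - 1) * x * y ^ 2 - y ^ 3

/-- Multiplication by `θ` on the ideal `(a, θ - s)`, in the basis `a, θ - s, θ² - s²`. -/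
def Y (a g s n : ℤ) : M3 :=
  !![s, 0, g; a, -s, -(n - 1 + s ^ 2); 0, 1, n]

theorem GompfEquiv.refl (A : M3) : GompfEquiv A A := Relation.EqvGen.refl A
theorem GompfEquiv.symm {A B : M3} (h : GompfEquiv A B) : GompfEquiv B A :=
  Relation.EqvGen.symm _ _ h
theorem GompfEquiv.trans {A B C : M3} (h : GompfEquiv A B) (h' : GompfEquiv B C) :
    GompfEquiv A C := Relation.EqvGen.trans _ _ _ h h'

theorem sim {A B : M3} (P : M3) (hP : IsUnit P.det) (h : P * A = B * P) : GompfEquiv A B :=
  Relation.EqvGen.rel _ _ (GompfStep.similar A B P hP h)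

theorem twist {a a' c d n k : ℤ} (h : a * d = 1 + c * (c - 1) * (n - c - 1))
    (h' : a' * d = 1 + c * (c - 1) * (n + k * d - c - 1)) :
    GompfEquiv (X a c d n) (X a' c d (n + k * d)) :=
  Relation.EqvGen.rel _ _ (GompfStep.twist a a' c d n k h h')

theorem even_mul_pred (c : ℤ) : Even (c * (c - 1)) := Int.even_mul_pred_self c

theorem f_ne (n s : ℤ) : f n s ≠ 0 := by
  intro h
  have h1 : s * (s - 1) * (s - n + 1) = 1 := by
    unfold f at h
    linear_combination h
  have h2 := (even_mul_pred s).mul_right (s - n + 1)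
  rw [h1] at h2
  exact absurd h2 (by decide)

theorem d_ne {a c d n : ℤ} (h : a * d = 1 + c * (c - 1) * (n - c - 1)) : a * d ≠ 0 := by
  intro h0
  have h1 : c * (c - 1) * (n - c - 1) = -1 := by linarith
  have h2 := (even_mul_pred c).mul_right (n - c - 1)
  rw [h1] at h2
  exact absurd h2 (by decide)

/-- The key similarity. -/
theorem X_sim_Y {a a' g s c d n x y σ τ : ℤ}
    (hX : a' * d = 1 + c * (c - 1) * (n - c - 1))
    (hY : a * g = - f n s)
    (hxs : x = y * s + a * σ) (hxc : x = y * c + d * τ)
    (hxy : IsCoprime x y) (hN : a * d = - N n x y) :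
    GompfEquiv (X a' c d n) (Y a g s n) := by
  have hd0 : a' * d ≠ 0 := d_ne hX
  have hd : d ≠ 0 := right_ne_zero_of_mul hd0
  have ha : a ≠ 0 := by
    rintro rfl
    exact f_ne n s (by linarith)
  have hcop : IsCoprime a y := by
    have h1 : IsCoprime (x ^ 3) y := hxy.pow_left
    have h2 : IsCoprime (N n x y) y := by
      have : N n x y = x ^ 3 + y * (- n * x ^ 2 + (n - 1) * x * y - y ^ 2) := by
        unfold N; ring
      rw [this]
      exact (IsCoprime.add_mul_left_left_iff).2 h1
    have h3 : IsCoprime (a * d) y := by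
      rw [hN]; exact h2.neg_left
    exact h3.of_mul_left_left
  -- the integer kappa
  have hdiv : a ∣ y * a' + (c - 1) * (n - c - 1) * τ + τ * s * (n - c - s) := by
    have h2 : a ∣ y ^ 2 * (y * a' + (c - 1) * (n - c - 1) * τ + τ * s * (n - c - s)) := by
      have h3 : d * (y ^ 2 * (y * a' + (c - 1) * (n - c - 1) * τ + τ * s * (n - c - s)))
          = d * (a * (1 + σ * τ * (x + y * s - y * (n - c)))) := by
        have e1 : d * τ = x - y * c := by linarith
        have e2 : a * σ = x - y * s := by linarith
        unfold N at hN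
        have : d * (a * (1 + σ * τ * (x + y * s - y * (n - c)))) =
          a * d + (a * σ) * (d * τ) * (x + y * s - y * (n - c)) := by ring
        rw [this, e1, e2, hN]
        have : d * (y ^ 2 * (y * a' + (c - 1) * (n - c - 1) * τ + τ * s * (n - c - s))) =
          y ^ 3 * (a' * d) + y ^ 2 * ((c - 1) * (n - c - 1) + s * (n - c - s)) * (d * τ) := by
          ring
        rw [this, e1, hX]
        ring
      have h4 := mul_left_cancel₀ hd h3
      rw [h4]
      exact Dvd.intro _ rfl
    exact (hcop.pow_right (n := 2)).dvd_of_dvd_mul_left h2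
  obtain ⟨κ, hκ⟩ := hdiv
  have e1 : d * τ = x - y * c := by linarith
  have e2 : a * σ = x - y * s := by linarith
  have hdet : y ^ 2 * κ = 1 + σ * τ * (x + y * s - y * (n - c)) := by
    have h3 : (a * d) * (y ^ 2 * κ) = (a * d) * (1 + σ * τ * (x + y * s - y * (n - c))) := by
      have : (a * d) * (y ^ 2 * κ) = y ^ 2 * d * (a * κ) := by ring
      rw [this, ← hκ]
      have : (a * d) * (1 + σ * τ * (x + y * s - y * (n - c))) =
          a * d + (a * σ) * (d * τ) * (x + y * s - y * (n - c)) := by ring
      rw [this, e1, e2, hN]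
      have : y ^ 2 * d * (y * a' + (c - 1) * (n - c - 1) * τ + τ * s * (n - c - s)) =
          y ^ 3 * (a' * d) + y ^ 2 * ((c - 1) * (n - c - 1) + s * (n - c - s)) * (d * τ) := by
          ring
      rw [this, e1, hX]
      unfold N
      ring
    exact mul_left_cancel₀ (mul_ne_zero ha hd) h3
  refine sim (!![-σ, κ, -(s * σ); y, τ * (n - c), -x; 0, -τ, y]) ?_ ?_
  · have : (!![-σ, κ, -(s * σ); y, τ * (n - c), -x; 0, -τ, y] : M3).det = -1 := by
      rw [Matrix.det_fin_three]
      simp
      linear_combination (-1 : ℤ) * hdet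
    rw [this]
    exact isUnit_one.neg
  · -- P * X = Y * P
    have r1 : s * κ - g * τ = - (a' * σ) + c * κ := by
      have : a * (s * κ - g * τ) = a * (- (a' * σ) + c * κ) := by
        have k1 : a * (s * κ - g * τ) = s * (a * κ) - (a * g) * τ := by ring
        have k2 : a * (- (a' * σ) + c * κ) = - (a' * (a * σ)) + c * (a * κ) := by ring
        rw [k1, k2, ← hκ, hY, e2]
        unfold f
        linear_combination (τ) * hX - a' * e1
      exact mul_left_cancel₀ ha this
    have r2 : - (s * (s * σ)) + g * y = - ((c - 1) * (n - c - 1) * σ) + d * κ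
        - (n - c) * (s * σ) := by
      have : a * (- (s * (s * σ)) + g * y) = a * (- ((c - 1) * (n - c - 1) * σ) + d * κ
        - (n - c) * (s * σ)) := by
        have k1 : a * (- (s * (s * σ)) + g * y) = - s ^ 2 * (a * σ) + (a * g) * y := by ring
        have k2 : a * (- ((c - 1) * (n - c - 1) * σ) + d * κ - (n - c) * (s * σ)) =
          - ((c - 1) * (n - c - 1)) * (a * σ) + d * (a * κ) - (n - c) * s * (a * σ) := by ring
        rw [k1, k2, ← hκ, hY, e2]
        unfold f
        linear_combination (-y) * hX - ((c - 1) * (n - c - 1) + s * (n - c - s)) * e1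
      exact mul_left_cancel₀ ha this
    have hκ' : a * κ = y * a' + (c - 1) * (n - c - 1) * τ + τ * s * (n - c - s) := hκ.symm
    ext i j
    fin_cases i <;> fin_cases j <;>
      simp [X, Y, Matrix.mul_apply, Fin.sum_univ_three] <;>
      first
        | ring1
        | (linear_combination (-1 : ℤ) * r1)
        | (linear_combination r1)
        | (linear_combination (-1 : ℤ) * r2)
        | (linear_combination r2)
        | (linear_combination (-1 : ℤ) * e1)
        | (linear_combination e1)
        | (linear_combination e2)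
        | (linear_combination (-1 : ℤ) * e2)
        | (linear_combination hκ')
        | (linear_combination (-1 : ℤ) * hκ')
        | (linear_combination s * e2 + (n - c) * e1)
        | (linear_combination (- s) * e2 - (n - c) * e1)
        | (linear_combination (- s) * e2 + (n - c) * e1)
        | (linear_combination s * e2 - (n - c) * e1)
        | trace_state

end Pool.Agent.CS72
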