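import Mathlib

/-!
# Cappell-Shaneson matrices and Gompf equivalence

A Cappell-Shaneson matrix is an integer matrix `A` of size 3 with `det A = 1` and
`det (A - 1) = 1`.  It defines two homotopy 4-spheres (surgery on the mapping torus of the
diffeomorphism of the 3-torus given by `A`, along the section through the fixed point, with the
two framings).  Their diffeomorphism types depend only on the similarity class of `A`, and Gompf
(More Cappell-Shaneson spheres are standard, 2010) proved that they do not change under
`X_{c,d,n} ↦ X_{c,d,n+kd}`.  Every Cappell-Shaneson matrix of trace `n` is similar to some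
`X_{c,d,n}` (Aitchison-Rubinstein).
-/

namespace Pool.Agent.CS72

open Matrix

/-- `3 × 3` integer matrices. -/
abbrev M3 := Matrix (Fin 3) (Fin 3) ℤ

/-- Gompf's standard form `X_{c,d,n}`, with rows `(0, a, b)`, `(0, c, d)`, `(1, 0, n - c)` and
`b = (c - 1)(n - c - 1)`.  When `a d = 1 + c (c - 1) (n - c - 1)` it has
`det = 1`, `det (X - 1) = 1` and trace `n`; the entry `a` is then determined by `c, d, n`. -/
def X (a c d n : ℤ) : M3 :=
  !![0, a, (c - 1) * (n - c - 1); 0, c, d; 1, 0, n - c]

/-- One step of Gompf's equivalence of Cappell-Shaneson matrices: similarity over `ℤ`, or the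
change of trace `X_{c,d,n} ↦ X_{c,d,n+kd}`. -/
inductive GompfStep : M3 → M3 → Prop
  | similar (A B P : M3) (hP : IsUnit P.det) (h : P * A = B * P) : GompfStep A B
  | twist (a a' c d n k : ℤ) (h : a * d = 1 + c * (c - 1) * (n - c - 1))
      (h' : a' * d = 1 + c * (c - 1) * (n + k * d - c - 1)) :
      GompfStep (X a c d n) (X a' c d (n + k * d))

/-- Gompf equivalence: the equivalence relation generated by `GompfStep`. -/
def GompfEquiv : M3 → M3 → Prop := Relation.EqvGen GompfStep

/-- The matrix of the simplest Cappell-Shaneson spheres, both of which are standard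
(Akbulut-Kirby, Gompf). -/
def A0 : M3 := !![0, 1, 0; 0, 1, 1; 1, 0, 1]

/-- `X` is a Cappell-Shaneson matrix. -/
theorem X_isCS (a c d n : ℤ) (h : a * d = 1 + c * (c - 1) * (n - c - 1)) :
    (X a c d n).det = 1 ∧ (X a c d n - 1).det = 1 ∧ (X a c d n).trace = n := by
  refine ⟨?_, ?_, ?_⟩
  · unfold X
    rw [Matrix.det_fin_three]
    simp
    linear_combination h
  · unfold X
    rw [Matrix.det_fin_three]
    simp
    linear_combination h
  · unfold X
    rw [Matrix.trace_fin_three]
    simp

end Pool.Agent.CS72
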