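import Mathlib

namespace Pool.Agent.CS72

/-- The list of the 76 exceptional pairs (modulus, residue) with modulus at most `120`. -/
def exceptional : List (ℤ × ℤ) :=
  [(49, 19), (49, 31), (71, 22), (71, 27), (71, 30), (71, 42), (71, 45), (71, 50),
   (79, 24), (79, 56), (83, 19), (83, 23), (83, 35), (83, 49), (83, 61), (83, 65),
   (89, 25), (89, 27), (89, 33), (89, 57), (89, 63), (89, 65), (93, 26), (93, 68),
   (95, 18), (95, 29), (95, 37), (95, 59), (95, 67), (95, 78), (97, 18), (97, 22),
   (97, 23), (97, 27), (97, 36), (97, 38), (97, 41), (97, 57), (97, 60), (97, 62),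
   (97, 71), (97, 75), (97, 76), (97, 80), (103, 19), (103, 38), (103, 40), (103, 64),
   (103, 66), (103, 85), (105, 23), (105, 32), (105, 44), (105, 62), (105, 74), (105, 83),
   (107, 17), (107, 20), (107, 45), (107, 63), (107, 88), (107, 91), (109, 46), (109, 64),
   (111, 26), (111, 41), (111, 47), (111, 65), (111, 71), (111, 86), (119, 37), (119, 44),
   (119, 46), (119, 74), (119, 76), (119, 83)]

end Pool.Agent.CS72
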