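import Pool.Agent.CS72.Small

namespace Pool.Agent.CS72

theorem mem_of_exc {e s : ℕ} (h : exc e s = true) : (e, s) ∈ excList := by
  unfold exc at h
  exact List.elem_iff.1 h

theorem exc_small_list : excList.all (fun p => decide (70 < p.1) ||
    (p.1 == 49 && (p.2 == 19 || p.2 == 31))) = true := by decide

theorem exc_small {e s : ℕ} (he : e ≤ 70) (h : exc e s = true) :
    e = 49 ∧ (s = 19 ∨ s = 31) := by
  have h1 := List.all_eq_true.1 exc_small_list _ (mem_of_exc h)
  simp only [Bool.or_eq_true, decide_eq_true_eq, Bool.and_eq_true, beq_iff_eq] at h1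
  rcases h1 with h1 | h1
  · omega
  · exact h1

def excCheck : Bool := (List.range 32).all fun i => excList.all fun p =>
  !(decide (2 * (p.1 : ℤ) ≤ |((i : ℤ) - 15) * (((i : ℤ) - 15) - 1)|) &&
    (((i : ℤ) - 15) % (p.1 : ℤ)).toNat == p.2)

theorem excCheck_true : excCheck = true := by decide +kernel

theorem exc_c {i e : ℕ} (hi : i < 32)
    (h : 2 * (e : ℤ) ≤ |((i : ℤ) - 15) * (((i : ℤ) - 15) - 1)|) :
    exc e (((i : ℤ) - 15) % (e : ℤ)).toNat = false := by
  by_contra hcon
  have h1 : exc e (((i : ℤ) - 15) % (e : ℤ)).toNat = true := by simpa using hcon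
  have h2 := mem_of_exc h1
  have h3 := excCheck_true
  unfold excCheck at h3
  have h4 := List.all_eq_true.1 (List.all_eq_true.1 h3 i (List.mem_range.2 hi)) _ h2
  simp only [Bool.not_eq_true', Bool.and_eq_false_iff, decide_eq_false_iff_not] at h4
  rcases h4 with h4 | h4
  · exact h4 h
  · simp at h4

theorem N_symm (n x y : ℤ) : N n x y = -(y ^ 3) + x * ((n - 1) * y ^ 2 - n * x * y + x ^ 2) := by
  unfold N; ring

theorem cop_x {x y : ℤ} (hxy : IsCoprime x y) (n : ℤ) : IsCoprime (N n x y) x := by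
  rw [N_symm]
  exact (IsCoprime.add_mul_left_left_iff).2 (hxy.symm.pow_left (m := 3)).neg_left

theorem cop_xy {x y : ℤ} (hxy : IsCoprime x y) (n : ℤ) : IsCoprime (N n x y) (x - y) := by
  have h : N n x y = -(y ^ 3) + (x - y) * (x ^ 2 + x * y - n * x * y) := by
    unfold N; ring
  rw [h]
  have h1 : IsCoprime y (x - y) := by
    have : IsCoprime (x - y) y := by
      have := (IsCoprime.add_mul_left_left_iff (x := x) (y := y) (z := -1)).2 hxy
      have e : x + y * -1 = x - y := by ring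
      rwa [e] at this
    exact this.symm
  exact (IsCoprime.add_mul_left_left_iff).2 (h1.pow_left (m := 3)).neg_left

theorem shift_cop {e e₀ k x y z w : ℤ} (h : IsCoprime e z) (hk : e₀ = e + k * (x * y * (x - y)))
    (hw : x * y * (x - y) = z * w) : IsCoprime e₀ z := by
  rw [hk, hw]
  have : e + k * (z * w) = e + z * (k * w) := by ring
  rw [this]
  exact (IsCoprime.add_mul_left_left_iff).2 h

theorem main70 (a c d n x y e e₀ k : ℤ)
    (hX : a * d = 1 + c * (c - 1) * (n - c - 1)) (hxy : IsCoprime x y) (hc : d ∣ x - y * c)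
    (he : e * d = - N n x y) (hk : e₀ = e + k * (x * y * (x - y))) (hb : |e₀| ≤ 70)
    (hex : ¬ (49 ∣ e₀ ∧ 49 ∣ x ^ 2 - x * y + y ^ 2)) : GompfEquiv (X a c d n) A0 := by
  obtain ⟨τ, hτ⟩ := hc
  have h1 : IsCoprime (e * d) y := by rw [he]; exact (isCoprime_N hxy n).neg_left
  have h2 : IsCoprime (e * d) x := by rw [he]; exact (cop_x hxy n).neg_left
  have h3 : IsCoprime (e * d) (x - y) := by rw [he]; exact (cop_xy hxy n).neg_left
  have h1' : IsCoprime e₀ y :=
    shift_cop h1.of_mul_left_left hk (w := x * (x - y)) (by ring)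
  have h2' : IsCoprime e₀ x :=
    shift_cop h2.of_mul_left_left hk (w := y * (x - y)) (by ring)
  have h3' : IsCoprime e₀ (x - y) :=
    shift_cop h3.of_mul_left_left hk (w := x * y) (by ring)
  have he0 : e₀ ≠ 0 := by
    rintro rfl
    rw [isCoprime_zero_left] at h1' h2' h3'
    rcases Int.isUnit_iff.1 h1' with h | h <;> rcases Int.isUnit_iff.1 h2' with h' | h' <;>
      rcases Int.isUnit_iff.1 h3' with h'' | h'' <;> omega
  obtain ⟨s₀, σ₀, hs⟩ := exists_res (x := x) h1'
  refine X_good (τ := τ) hX hxy (by linarith) he hk hs (good_int he0 (by linarith) ?_)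
  by_contra hcon
  have hcon' : exc e₀.natAbs (s₀ % (e₀.natAbs : ℤ)).toNat = true := by
    simpa using hcon
  have hb' : e₀.natAbs ≤ 70 := by
    have : (e₀.natAbs : ℤ) ≤ 70 := by rw [Int.natCast_natAbs]; exact hb
    exact_mod_cast this
  have hpos : 0 < e₀.natAbs := Int.natAbs_pos.2 he0
  have hlt : (s₀ % (e₀.natAbs : ℤ)).toNat < e₀.natAbs := by
    have := Int.emod_lt_of_pos s₀ (by exact_mod_cast hpos : (0 : ℤ) < (e₀.natAbs : ℤ))
    omega
  obtain ⟨h6, h7⟩ := exc_small hb' hcon'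
  rw [h6] at h7
  have h49 : (49 : ℤ) ∣ e₀ := by
    have : ((49 : ℕ) : ℤ) ∣ e₀ := by rw [← h6]; exact Int.natAbs_dvd.2 dvd_rfl
    exact_mod_cast this
  apply hex
  refine ⟨h49, ?_⟩
  have h8 : (49 : ℤ) ∣ s₀ ^ 2 - s₀ + 1 := by
    have h9 : s₀ % 49 = 19 ∨ s₀ % 49 = 31 := by
      have : ((49 : ℕ) : ℤ) = 49 := rfl
      rw [this] at h7
      omega
    rcases h9 with h9 | h9
    · obtain ⟨q, hq⟩ : ∃ q, s₀ = 49 * q + 19 := ⟨s₀ / 49, by omega⟩
      rw [hq]
      exact ⟨49 * q ^ 2 + 37 * q + 7, by ring⟩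
    · obtain ⟨q, hq⟩ : ∃ q, s₀ = 49 * q + 31 := ⟨s₀ / 49, by omega⟩
      rw [hq]
      exact ⟨49 * q ^ 2 + 61 * q + 19, by ring⟩
  obtain ⟨u, hu⟩ := h49
  have h10 : x = y * s₀ + 49 * (u * σ₀) := by rw [hs, hu]; ring
  have h11 : x ^ 2 - x * y + y ^ 2 = y ^ 2 * (s₀ ^ 2 - s₀ + 1)
      + 49 * (u * σ₀ * (2 * (y * s₀) + 49 * (u * σ₀) - y)) := by
    rw [h10]; ring
  rw [h11]
  exact dvd_add (Dvd.dvd.mul_left h8 _) (Dvd.intro _ rfl)

theorem exists_small_rep (e m : ℤ) (hm : m ≠ 0) : ∃ k : ℤ, 2 * |e + k * m| ≤ |m| := by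
  have hpos : 0 < |m| := abs_pos.2 hm
  -- use balanced remainder modulo `|m|`
  have key : ∃ q : ℤ, 2 * abs (e + q * abs m) ≤ |m| := by
    refine ⟨-((2 * e + |m|) / (2 * |m|)), ?_⟩
    have h1 := Int.emod_add_mul_ediv (2 * e + |m|) (2 * |m|)
    have h2 := Int.emod_nonneg (2 * e + |m|) (by omega : 2 * |m| ≠ 0)
    have h3 := Int.emod_lt_of_pos (2 * e + |m|) (by omega : 0 < 2 * |m|)
    set q := (2 * e + |m|) / (2 * |m|)
    set r := (2 * e + |m|) % (2 * |m|)
    have h4 : 2 * (e + -q * |m|) = r - |m| := by linear_combination (-1 : ℤ) * h1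
    have h5 : abs (2 * (e + -q * abs m)) ≤ |m| := by
      rw [h4, abs_le]; constructor <;> linarith
    rwa [abs_mul, abs_two] at h5
  obtain ⟨q, hq⟩ := key
  rcases abs_choice m with h | h
  · exact ⟨q, by rw [h] at hq ⊢; exact hq⟩
  · refine ⟨-q, ?_⟩
    have : e + -q * m = e + q * |m| := by rw [h]; ring
    rw [this]; exact hq

theorem main_c (a c d n : ℤ)
    (hX : a * d = 1 + c * (c - 1) * (n - c - 1)) (h1 : -15 ≤ c) (h2 : c ≤ 16) :
    GompfEquiv (X a c d n) A0 := by
  have hN : a * d = - N n c 1 := by rw [hX]; unfold N; ring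
  have ha : a ≠ 0 := left_ne_zero_of_mul (d_ne hX)
  rcases eq_or_ne (c * (c - 1)) 0 with hm | hm
  · have h3 : a * d = 1 := by rw [hX, hm]; ring
    have h4 : IsUnit a := IsUnit.of_mul_eq_one d h3
    have hg : Good a c := by
      rcases Int.isUnit_iff.1 h4 with h | h
      · rw [h]; exact good_one c
      · rw [h]; exact good_neg (good_one c)
    exact X_good (x := c) (y := 1) (τ := 0) (k := 0) (s₀ := c) (σ₀ := 0) hX isCoprime_one_right
      (by ring) hN (by ring) (by ring) hg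
  · obtain ⟨k, hk⟩ := exists_small_rep a (c * (c - 1)) hm
    have hcm : c * 1 * (c - 1) = c * (c - 1) := by ring
    have hbound : |c * (c - 1)| ≤ 240 := by
      rw [abs_le]
      constructor <;> nlinarith
    have hcop : IsCoprime (a + k * (c * (c - 1))) (c * (c - 1)) := by
      refine ⟨d, -((n - c - 1) + k * d), ?_⟩
      linear_combination hX
    have he0 : a + k * (c * (c - 1)) ≠ 0 := by
      intro h0
      rw [h0, isCoprime_zero_left] at hcop
      have := even_mul_pred c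
      rcases Int.isUnit_iff.1 hcop with h | h <;> rw [h] at this <;>
        exact absurd this (by decide)
    refine X_good (x := c) (y := 1) (τ := 0) (k := k) (s₀ := c) (σ₀ := 0)
      (e₀ := a + k * (c * (c - 1))) hX isCoprime_one_right
      (by ring) hN (by ring) (by ring) (good_int he0 (by omega) ?_)
    set e₀ := a + k * (c * (c - 1)) with he₀
    have h5 : (e₀.natAbs : ℤ) = |e₀| := Int.natCast_natAbs _
    have h7 : (((c + 15).toNat : ℕ) : ℤ) - 15 = c := by omega
    have h6 := exc_c (i := (c + 15).toNat) (e := e₀.natAbs) (by omega)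
    rw [h7] at h6
    exact h6 (by rw [h5]; exact hk)

end Pool.Agent.CS72
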