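import Pool.Agent.CS72.Basic

namespace Pool.Agent.CS72

open Matrix

/-- The ideals `(a, θ - s)` are Gompf-standard for every trace. -/
def Good (a s : ℤ) : Prop := ∀ n g : ℤ, a * g = - f n s → GompfEquiv (Y a g s n) A0

theorem N_eq_of (n x y s a σ : ℤ) (h : x = y * s + a * σ) :
    a ∣ N n x y - y ^ 3 * f n s := by
  subst h
  refine ⟨σ * (3 * (y * s) ^ 2 + 3 * (y * s) * (a * σ) + (a * σ) ^ 2
    - n * y * (2 * (y * s) + a * σ) + (n - 1) * y ^ 2), ?_⟩
  unfold N f
  ring

theorem good_mod {a s s' : ℤ} (h : a ∣ s' - s) (hg : Good a s) : Good a s' := by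
  obtain ⟨t, ht⟩ := h
  have hs : s' = s + a * t := by linarith
  subst hs
  intro n g' hg'
  have : ∃ g, a * g = - f n s := by
    have h1 : a ∣ f n (s + a * t) - f n s := by
      refine ⟨t * (3 * s ^ 2 + 3 * s * (a * t) + (a * t) ^ 2 - n * (2 * s + a * t)
        + (n - 1)), ?_⟩
      unfold f; ring
    have h2 : a ∣ f n (s + a * t) := ⟨-g', by linarith⟩
    have h3 := (dvd_sub_right h2).1 h1
    obtain ⟨g, hg⟩ := h3
    exact ⟨-g, by linarith⟩
  obtain ⟨g, hg2⟩ := this
  refine (sim (A := Y a g' (s + a * t) n) (B := Y a g s n)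
    (!![1, -t, -(2 * s * t + a * t ^ 2); 0, 1, 0; 0, 0, 1]) ?_ ?_).trans (hg n g hg2)
  · rw [Matrix.det_fin_three]
    simp
  · have ha : a ≠ 0 := by
      rintro rfl
      exact f_ne n s (by linarith)
    have hgg : g' = g - (3 * s ^ 2 * t + 3 * a * s * t ^ 2 + a ^ 2 * t ^ 3
        - n * (2 * s * t + a * t ^ 2) + (n - 1) * t) := by
      apply mul_left_cancel₀ ha
      rw [hg']
      have : a * (g - (3 * s ^ 2 * t + 3 * a * s * t ^ 2 + a ^ 2 * t ^ 3
        - n * (2 * s * t + a * t ^ 2) + (n - 1) * t)) = a * g -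
          a * (3 * s ^ 2 * t + 3 * a * s * t ^ 2 + a ^ 2 * t ^ 3
        - n * (2 * s * t + a * t ^ 2) + (n - 1) * t) := by ring
      rw [this, hg2]
      unfold f; ring
    subst hgg
    ext i j
    fin_cases i <;> fin_cases j <;>
      simp [Y, Matrix.mul_apply, Fin.sum_univ_three] <;> ring1

theorem good_neg {a s : ℤ} (hg : Good a s) : Good (-a) s := by
  intro n g h
  refine (sim (A := Y (-a) g s n) (B := Y a (-g) s n)
    (!![-1, 0, 0; 0, 1, 0; 0, 0, 1]) ?_ ?_).trans (hg n (-g) (by linarith))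
  · rw [Matrix.det_fin_three]
    simp
  · ext i j
    fin_cases i <;> fin_cases j <;>
      simp [Y, Matrix.mul_apply, Fin.sum_univ_three]

theorem good_one (s : ℤ) : Good 1 s := by
  intro n g h
  -- `Y 1 g s n ~ X (-1) 0 (-1) n`
  have h1 : ∀ n g s : ℤ, 1 * g = - f n s → GompfEquiv (X (-1) 0 (-1) n) (Y 1 g s n) := by
    intro n g s h
    refine X_sim_Y (x := 1) (y := 0) (σ := 1) (τ := -1) (by ring) h (by ring) (by ring)
      isCoprime_one_left ?_
    unfold N; ring
  have h2 : GompfEquiv (X (-1) 0 (-1) n) (X (-1) 0 (-1) 2) := by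
    have := twist (a := -1) (a' := -1) (c := 0) (d := -1) (n := n) (k := n - 2)
      (by ring) (by ring)
    have e : n + (n - 2) * (-1) = 2 := by ring
    rw [e] at this
    exact this
  have h3 : GompfEquiv (X 1 1 1 2) (Y 1 1 0 2) := by
    refine X_sim_Y (x := 1) (y := 1) (σ := 1) (τ := 0) (by ring) ?_ (by ring) (by ring)
      isCoprime_one_left ?_
    · unfold f; ring
    · unfold N; ring
  have h4 := h1 2 1 0 (by unfold f; ring)
  rw [A0_eq]
  exact ((h1 n g s h).symm.trans h2).trans (h4.trans h3.symm)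

theorem isCoprime_N {x y : ℤ} (hxy : IsCoprime x y) (n : ℤ) : IsCoprime (N n x y) y := by
  have h1 : IsCoprime (x ^ 3) y := hxy.pow_left
  have : N n x y = x ^ 3 + y * (- n * x ^ 2 + (n - 1) * x * y - y ^ 2) := by
    unfold N; ring
  rw [this]
  exact (IsCoprime.add_mul_left_left_iff).2 h1

/-- From a coprime pair and a factorisation of the norm to `X`. -/
theorem exists_res {x y d : ℤ} (hd : IsCoprime d y) : ∃ c τ, x = y * c + d * τ := by
  obtain ⟨u, v, huv⟩ := hd
  exact ⟨v * x, u * x, by linear_combination (-x) * huv⟩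

theorem exists_f {n x y d c τ e : ℤ} (hxy : IsCoprime x y) (hc : x = y * c + d * τ)
    (he : e * d = - N n x y) : ∃ a', a' * d = - f n c := by
  have h1 := N_eq_of n x y c d τ hc
  have h2 : d ∣ N n x y := ⟨-e, by linarith⟩
  have h3 : d ∣ y ^ 3 * f n c := (dvd_sub_right h2).1 h1
  have h4 : IsCoprime d y := by
    have := isCoprime_N hxy n
    have h5 : IsCoprime (e * d) y := by rw [he]; exact this.neg_left
    exact h5.of_mul_left_right
  have h6 : d ∣ f n c := (h4.pow_right (n := 3)).dvd_of_dvd_mul_left h3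
  obtain ⟨t, ht⟩ := h6
  exact ⟨-t, by rw [ht]; ring⟩

theorem f_X {n c : ℤ} : - f n c = 1 + c * (c - 1) * (n - c - 1) := by
  unfold f; ring

/-- Version for `X`: `X_{c,d,n}` is standard when some coprime pair `x, y` with
`x ≡ y c (mod d)` has `- N n x y = e d` with `e ≡ e₀ (mod x y (x - y))`, `Good e₀ s₀`. -/
theorem X_good {a' c d n x y τ e e₀ k s₀ σ₀ : ℤ}
    (hX : a' * d = 1 + c * (c - 1) * (n - c - 1)) (hxy : IsCoprime x y)
    (hc : x = y * c + d * τ) (he : e * d = - N n x y)
    (hk : e₀ = e + k * (x * y * (x - y))) (hs : x = y * s₀ + e₀ * σ₀) (hg : Good e₀ s₀) :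
    GompfEquiv (X a' c d n) A0 := by
  have hN : e₀ * d = - N (n + k * d) x y := by
    rw [hk]
    unfold N at he ⊢
    linear_combination he
  have h1 : (a' + k * (c * (c - 1))) * d = 1 + c * (c - 1) * (n + k * d - c - 1) := by
    linear_combination hX
  have h2 : GompfEquiv (X a' c d n) (X (a' + k * (c * (c - 1))) c d (n + k * d)) :=
    twist hX h1
  obtain ⟨g, hg0⟩ := exists_f (n := n + k * d) hxy hs (e := d) (by rw [mul_comm]; exact hN)
  have h3 := X_sim_Y (g := g) h1 (by rw [mul_comm]; exact hg0) hs hc hxy hN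
  exact (h2.trans h3).trans (hg _ _ (by rw [mul_comm]; exact hg0))

/-- The linear move: `(a, θ - r)` is standard for all traces if `(a', θ - r)` is and
`a' ≡ a` modulo `x y (x - y)`, `r = x / y`. -/
theorem good_step {a s a' s' x y σ σ' k : ℤ} (hxy : IsCoprime x y)
    (hs : x = y * s + a * σ) (ha : a' = a + k * (x * y * (x - y)))
    (hs' : x = y * s' + a' * σ') (hg : Good a' s') : Good a s := by
  intro n g h
  have h1 := N_eq_of n x y s a σ hs
  have h2 : a ∣ y ^ 3 * f n s := Dvd.dvd.mul_left ⟨-g, by linarith⟩ _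
  have h3 : a ∣ N n x y := (dvd_sub_left h2).1 h1
  obtain ⟨d', hd'⟩ := h3
  have hd : a * (-d') = - N n x y := by rw [hd']; ring
  have h4 : IsCoprime (-d') y := by
    have := isCoprime_N hxy n
    have h5 : IsCoprime (a * (-d')) y := by rw [hd]; exact this.neg_left
    exact h5.of_mul_left_right
  obtain ⟨c, τ, hc⟩ := exists_res (x := x) h4
  obtain ⟨a'', ha''⟩ := exists_f hxy hc hd
  rw [f_X] at ha''
  have h5 := X_sim_Y ha'' h hs hc hxy hd
  exact h5.symm.trans (X_good ha'' hxy hc hd ha hs' hg)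

end Pool.Agent.CS72
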