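import Pool.Agent.CS72.Final
import Pool.Agent.CS72.Exc

namespace Pool.Agent.CS72

theorem exc_of_mem_check : excList.all (fun p => exceptional.any
    (fun q => q.1 == (p.1 : ℤ) && q.2 == (p.2 : ℤ))) = true := by decide +kernel

theorem main120 (a c d n x y e b t : ℤ)
    (hX : a * d = 1 + c * (c - 1) * (n - c - 1)) (hxy : IsCoprime x y) (hc : d ∣ y * c - x)
    (he : d * e = x ^ 3 - n * x ^ 2 * y + (n - 1) * x * y ^ 2 - y ^ 3)
    (hk : x * y * (x - y) ∣ e - b) (hb : |b| ≤ 120) (ht : b ∣ y * t - x)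
    (hex : ∀ p ∈ exceptional, p.1 = |b| → ¬ p.1 ∣ t - p.2) : GompfEquiv (X a c d n) A0 := by
  obtain ⟨τ, hτ⟩ := hc
  obtain ⟨k, hk⟩ := hk
  have he' : (-e) * d = - N n x y := by unfold N; linear_combination (-1 : ℤ) * he
  have h1 : IsCoprime ((-e) * d) y := by rw [he']; exact (isCoprime_N hxy n).neg_left
  have h2 : IsCoprime ((-e) * d) x := by rw [he']; exact (cop_x hxy n).neg_left
  have h3 : IsCoprime ((-e) * d) (x - y) := by rw [he']; exact (cop_xy hxy n).neg_left
  have hk' : -b = -e + k * (x * y * (x - y)) := by linear_combination hk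
  have h1' : IsCoprime (-b) y :=
    shift_cop h1.of_mul_left_left hk' (w := x * (x - y)) (by ring)
  have h2' : IsCoprime (-b) x :=
    shift_cop h2.of_mul_left_left hk' (w := y * (x - y)) (by ring)
  have h3' : IsCoprime (-b) (x - y) :=
    shift_cop h3.of_mul_left_left hk' (w := x * y) (by ring)
  have hb0 : b ≠ 0 := by
    rintro rfl
    rw [neg_zero] at h1' h2' h3'
    rw [isCoprime_zero_left] at h1' h2' h3'
    rcases Int.isUnit_iff.1 h1' with h | h <;> rcases Int.isUnit_iff.1 h2' with h' | h' <;>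
      rcases Int.isUnit_iff.1 h3' with h'' | h'' <;> omega
  obtain ⟨σ, hσ⟩ := ht
  have hgood : Good b t := by
    refine good_int hb0 hb ?_
    by_contra hcon
    have hcon' : exc b.natAbs (t % (b.natAbs : ℤ)).toNat = true := by simpa using hcon
    have hmem := mem_of_exc hcon'
    have h4 := List.all_eq_true.1 exc_of_mem_check _ hmem
    rw [List.any_eq_true] at h4
    obtain ⟨q, hq, hq2⟩ := h4
    simp only [Bool.and_eq_true, beq_iff_eq] at hq2
    obtain ⟨hq3, hq4⟩ := hq2
    have hpos : 0 < b.natAbs := Int.natAbs_pos.2 hb0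
    have h5 : ((t % (b.natAbs : ℤ)).toNat : ℤ) = t % (b.natAbs : ℤ) := by
      apply Int.toNat_of_nonneg
      apply Int.emod_nonneg
      exact_mod_cast hpos.ne'
    refine hex q hq (by rw [hq3, Int.natCast_natAbs]) ?_
    rw [hq3, hq4, h5]
    exact Int.dvd_self_sub_emod
  exact X_good (x := x) (y := y) (τ := -τ) (e := -e) (e₀ := -b) (k := k) (s₀ := t) (σ₀ := σ)
    hX hxy (by linear_combination (-1 : ℤ) * hτ) he' hk' (by linear_combination (-1 : ℤ) * hσ)
    (good_neg hgood)

end Pool.Agent.CS72
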