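import Pool.Agent.CS72.Table

namespace Pool.Agent.CS72

/-- exceptional residue class -/
def exc (e s : ℕ) : Bool := excList.contains (e, s)

/-- check a path of linear moves from `(e, s)` to a non exceptional class of modulus `< B`. -/
def chk (B : ℕ) : ℤ → ℤ → List (ℤ × ℤ × ℤ × ℤ) → Bool
  | e, s, [] => (e.natAbs != 0) && (decide (e.natAbs < B)) &&
      !(exc e.natAbs (s % (e.natAbs : ℤ)).toNat)
  | e, s, (x, y, k, s') :: rest =>
      (Int.gcd x y == 1) && ((x - y * s) % e == 0) &&
      ((x - y * s') % (e + k * (x * y * (x - y))) == 0) &&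
      chk B ((e + k * (x * y * (x - y))).natAbs : ℤ) s' rest

theorem chk_sound (B : ℕ)
    (H : ∀ e s : ℤ, e ≠ 0 → e.natAbs < B → exc e.natAbs (s % (e.natAbs : ℤ)).toNat = false →
      Good e s) :
    ∀ (l : List (ℤ × ℤ × ℤ × ℤ)) (e s : ℤ), chk B e s l = true → Good e s := by
  intro l
  induction l with
  | nil =>
    intro e s h
    simp only [chk, Bool.and_eq_true, bne_iff_ne, ne_eq, decide_eq_true_eq,
      Bool.not_eq_true'] at h
    obtain ⟨⟨h1, h2⟩, h3⟩ := h
    exact H e s (by intro h; exact h1 (by rw [h]; rfl)) h2 h3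
  | cons t rest ih =>
    obtain ⟨x, y, k, s'⟩ := t
    intro e s h
    simp only [chk, Bool.and_eq_true, beq_iff_eq] at h
    obtain ⟨⟨⟨h1, h2⟩, h3⟩, h4⟩ := h
    obtain ⟨σ, hσ⟩ := Int.dvd_of_emod_eq_zero h2
    obtain ⟨σ', hσ'⟩ := Int.dvd_of_emod_eq_zero h3
    have h5 : Good (e + k * (x * y * (x - y))) s' := by
      rcases Int.natAbs_eq (e + k * (x * y * (x - y))) with h7 | h7
      · rw [h7]; exact ih _ _ h4
      · rw [h7]; exact good_neg (ih _ _ h4)
    exact good_step (x := x) (y := y) (σ := σ) (σ' := σ') (k := k)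
      (Int.isCoprime_iff_gcd_eq_one.2 h1) (by linarith) rfl (by linarith) h5

/-- the whole table is correct. -/
def allOK : Bool := (List.range 121).all fun e => (List.range e).all fun s =>
  (decide (e < 2)) || (Nat.gcd (s * (s - 1)) e != 1) || exc e s ||
    chk e e s ((tab.getD e []).getD s [])

theorem allOK_true : allOK = true := by decide +kernel

theorem good_vacuous {a s : ℤ} (h : Int.gcd (s * (s - 1)) a ≠ 1) : Good a s := by
  intro n g hg
  exfalso
  apply h
  rw [← Int.isCoprime_iff_gcd_eq_one]
  refine ⟨s - n + 1, g, ?_⟩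
  unfold f at hg
  linear_combination hg

theorem good_nat : ∀ e : ℕ, e ≤ 120 → e ≠ 0 → ∀ s : ℕ, s < e → exc e s = false →
    Good (e : ℤ) (s : ℤ) := by
  intro e
  induction e using Nat.strong_induction_on with
  | _ e ih =>
    intro he he0 s hs hex
    rcases Nat.lt_or_ge e 2 with h2 | h2
    · have : e = 1 := by omega
      subst this
      exact good_one _
    · by_cases hg : Nat.gcd (s * (s - 1)) e = 1
      · have h := allOK_true
        unfold allOK at h
        rw [List.all_eq_true] at h
        have h1 := h e (List.mem_range.2 (by omega))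
        rw [List.all_eq_true] at h1
        have h3 := h1 s (List.mem_range.2 hs)
        simp only [Bool.or_eq_true, decide_eq_true_eq, bne_iff_ne, ne_eq] at h3
        rcases h3 with ((h3 | h3) | h3) | h3
        · omega
        · exact absurd hg h3
        · rw [hex] at h3; exact absurd h3 (by decide)
        · refine chk_sound e ?_ _ _ _ h3
          intro e' s' he' hlt hex'
          have hpos : 0 < e'.natAbs := Int.natAbs_pos.2 he'
          have hs' : (s' % (e'.natAbs : ℤ)).toNat < e'.natAbs := by
            have := Int.emod_lt_of_pos s' (by exact_mod_cast hpos : (0 : ℤ) < (e'.natAbs : ℤ))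
            omega
          have h4 := ih e'.natAbs hlt (by omega) (by omega) _ hs' hex'
          have h5 : ((s' % (e'.natAbs : ℤ)).toNat : ℤ) = s' % (e'.natAbs : ℤ) := by
            apply Int.toNat_of_nonneg
            apply Int.emod_nonneg
            exact_mod_cast hpos.ne'
          rw [h5] at h4
          have h6 : Good (e'.natAbs : ℤ) s' := by
            refine good_mod ?_ h4
            exact Int.dvd_self_sub_emod
          rcases Int.natAbs_eq e' with h7 | h7
          · rw [h7]; exact h6
          · rw [h7]; exact good_neg h6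
      · refine good_vacuous ?_
        rcases Nat.eq_zero_or_pos s with h0 | h0
        · subst h0
          simp
          omega
        · have : ((s : ℤ) * ((s : ℤ) - 1)) = ((s * (s - 1) : ℕ) : ℤ) := by
            rw [Nat.cast_mul, Nat.cast_sub h0]; norm_num
          rw [this, Int.gcd_natCast_natCast]
          exact hg

theorem good_int {e s : ℤ} (he : e ≠ 0) (hb : |e| ≤ 120)
    (hex : exc e.natAbs (s % (e.natAbs : ℤ)).toNat = false) : Good e s := by
  have hpos : 0 < e.natAbs := Int.natAbs_pos.2 he
  have hs' : (s % (e.natAbs : ℤ)).toNat < e.natAbs := by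
    have := Int.emod_lt_of_pos s (by exact_mod_cast hpos : (0 : ℤ) < (e.natAbs : ℤ))
    omega
  have hb' : e.natAbs ≤ 120 := by
    have : (e.natAbs : ℤ) ≤ 120 := by rw [Int.natCast_natAbs]; exact hb
    exact_mod_cast this
  have h4 := good_nat e.natAbs hb' (by omega) _ hs' hex
  have h5 : ((s % (e.natAbs : ℤ)).toNat : ℤ) = s % (e.natAbs : ℤ) := by
    apply Int.toNat_of_nonneg
    apply Int.emod_nonneg
    exact_mod_cast hpos.ne'
  rw [h5] at h4
  have h6 : Good (e.natAbs : ℤ) s := by
    refine good_mod ?_ h4
    exact Int.dvd_self_sub_emod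
  rcases Int.natAbs_eq e with h7 | h7
  · rw [h7]; exact h6
  · rw [h7]; exact good_neg h6

end Pool.Agent.CS72
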