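import Pool.Agent.CS72.Good

/-!
Certificates: for every residue class `s` modulo `e ≤ 120` outside the list `exc`, a short path of
linear moves from `(e, s)` to a class of smaller modulus.
-/

namespace Pool.Agent.CS72


def tab0 : List (List (ℤ × ℤ × ℤ × ℤ)) :=
  []

def tab1 : List (List (ℤ × ℤ × ℤ × ℤ)) :=
  [[]]

def tab2 : List (List (ℤ × ℤ × ℤ × ℤ)) :=
  [[],[]]

def tab3 : List (List (ℤ × ℤ × ℤ × ℤ)) :=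
  [[],[],[(-1,1,-2,0)]]

def tab4 : List (List (ℤ × ℤ × ℤ × ℤ)) :=
  [[],[],[],[]]

def tab5 : List (List (ℤ × ℤ × ℤ × ℤ)) :=
  [[],[],[(2,1,-4,2)],[(1,2,4,2)],[(-1,1,-4,2)]]

def tab6 : List (List (ℤ × ℤ × ℤ × ℤ)) :=
  [[],[],[],[],[],[]]

def tab7 : List (List (ℤ × ℤ × ℤ × ℤ)) :=
  [[],[],[(2,1,-6,2)],[(-1,2,-2,2)],[(1,2,6,3)],[(-2,1,-2,3)],
   [(-1,1,-6,4)]]

def tab8 : List (List (ℤ × ℤ × ℤ × ℤ)) :=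
  [[],[],[],[],[],[],
   [],[]]

def tab9 : List (List (ℤ × ℤ × ℤ × ℤ)) :=
  [[],[],[(2,1,-8,2)],[],[],[(1,2,8,4)],
   [],[],[(-1,1,-8,6)]]

def tab10 : List (List (ℤ × ℤ × ℤ × ℤ)) :=
  [[],[],[],[],[],[],
   [],[],[],[]]

def tab11 : List (List (ℤ × ℤ × ℤ × ℤ)) :=
  [[],[],[(2,1,-10,2)],[(3,1,-3,3)],[(1,3,3,5)],[(-1,2,-3,3)],
   [(1,2,10,5)],[(3,2,-3,5)],[(2,3,3,3)],[(-2,1,-3,5)],[(-1,1,-10,8)]]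

def tab12 : List (List (ℤ × ℤ × ℤ × ℤ)) :=
  [[],[],[],[],[],[],
   [],[],[],[],[],[]]

def tab13 : List (List (ℤ × ℤ × ℤ × ℤ)) :=
  [[],[],[(2,1,-12,2)],[(3,1,-4,3)],[(-1,3,-2,7)],[(2,3,4,8)],
   [(-1,2,-4,5)],[(1,2,12,6)],[(3,2,-4,7)],[(1,3,4,4)],[(-3,1,-2,8)],[(-2,1,-4,9)],
   [(-1,1,-12,10)]]

def tab14 : List (List (ℤ × ℤ × ℤ × ℤ)) :=
  [[],[],[],[],[],[],
   [],[],[],[],[],[],
   [],[]]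

def tab15 : List (List (ℤ × ℤ × ℤ × ℤ)) :=
  [[],[],[(2,1,-14,2)],[],[],[],
   [],[],[(1,2,14,7)],[],[],[],
   [],[],[(-1,1,-14,12)]]

def tab16 : List (List (ℤ × ℤ × ℤ × ℤ)) :=
  [[],[],[],[],[],[],
   [],[],[],[],[],[],
   [],[],[],[]]

def tab17 : List (List (ℤ × ℤ × ℤ × ℤ)) :=
  [[],[],[(2,1,-16,2)],[(3,1,-5,3)],[(4,1,-2,4)],[(3,4,2,6)],
   [(1,3,5,9)],[(4,3,-2,6)],[(-1,2,-5,6)],[(1,2,16,8)],[(3,2,-5,8)],[(-1,3,-2,2)],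
   [(2,3,5,5)],[(1,4,2,2)],[(-3,1,-2,4)],[(-2,1,-5,11)],[(-1,1,-16,14)]]

def tab18 : List (List (ℤ × ℤ × ℤ × ℤ)) :=
  [[],[],[],[],[],[],
   [],[],[],[],[],[],
   [],[],[],[],[],[]]

def tab19 : List (List (ℤ × ℤ × ℤ × ℤ)) :=
  [[],[],[(2,1,-18,2)],[(3,1,-6,3)],[(4,1,-3,4)],[(1,4,3,13)],
   [(-1,3,-3,11)],[(2,3,6,12)],[(-3,2,-1,4)],[(-1,2,-6,8)],[(1,2,18,9)],[(3,2,-6,10)],
   [(-2,3,-1,3)],[(1,3,6,6)],[(4,3,-3,7)],[(3,4,3,5)],[(-3,1,-3,14)],[(-2,1,-6,15)],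
   [(-1,1,-18,16)]]

def tab20 : List (List (ℤ × ℤ × ℤ × ℤ)) :=
  [[],[],[],[],[],[],
   [],[],[],[],[],[],
   [],[],[],[],[],[],
   [],[]]

def tab21 : List (List (ℤ × ℤ × ℤ × ℤ)) :=
  [[],[],[(2,1,-20,2)],[],[],[(-1,4,-2,14)],
   [],[],[],[],[],[(1,2,20,10)],
   [],[],[],[],[],[(-4,1,-2,15)],
   [],[],[(-1,1,-20,18)]]

def tab22 : List (List (ℤ × ℤ × ℤ × ℤ)) :=
  [[],[],[],[],[],[],
   [],[],[],[],[],[],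
   [],[],[],[],[],[],
   [],[],[],[]]

def tab23 : List (List (ℤ × ℤ × ℤ × ℤ)) :=
  [[],[],[(2,1,-22,2)],[(3,1,-7,3)],[(4,1,-3,4)],[(5,1,-2,5)],
   [(1,4,3,10)],[(5,4,-2,14)],[(1,3,7,13)],[(4,3,-3,10)],[(4,5,2,11)],[(-1,2,-7,9)],
   [(1,2,22,11)],[(3,2,-7,11)],[(1,5,2,7)],[(-1,3,-3,4)],[(2,3,7,7)],[(-1,4,-2,4)],
   [(3,4,3,4)],[(-4,1,-2,13)],[(-3,1,-3,10)],[(-2,1,-7,17)],[(-1,1,-22,20)]]

def tab24 : List (List (ℤ × ℤ × ℤ × ℤ)) :=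
  [[],[],[],[],[],[],
   [],[],[],[],[],[],
   [],[],[],[],[],[],
   [],[],[],[],[],[]]

def tab25 : List (List (ℤ × ℤ × ℤ × ℤ)) :=
  [[],[],[(2,1,-24,2)],[(3,1,-8,3)],[(4,1,-4,4)],[],
   [],[(3,4,4,18)],[(-1,3,-4,15)],[(2,3,8,16)],[],[],
   [(-1,2,-8,11)],[(1,2,24,12)],[(3,2,-8,13)],[],[],[(1,3,8,8)],
   [(4,3,-4,9)],[(1,4,4,6)],[],[],[(-3,1,-4,20)],[(-2,1,-8,21)],
   [(-1,1,-24,22)]]

def tab26 : List (List (ℤ × ℤ × ℤ × ℤ)) :=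
  [[],[],[],[],[],[],
   [],[],[],[],[],[],
   [],[],[],[],[],[],
   [],[],[],[],[],[],
   [],[]]

def tab27 : List (List (ℤ × ℤ × ℤ × ℤ)) :=
  [[],[],[(2,1,-26,2)],[],[],[(5,1,-2,5)],
   [],[],[(5,4,-2,11)],[],[],[(1,5,2,8)],
   [],[],[(1,2,26,13)],[],[],[(4,5,2,6)],
   [],[],[(-1,4,-2,3)],[],[],[(-4,1,-2,9)],
   [],[],[(-1,1,-26,24)]]

def tab28 : List (List (ℤ × ℤ × ℤ × ℤ)) :=
  [[],[],[],[],[],[],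
   [],[],[],[],[],[],
   [],[],[],[],[],[],
   [],[],[],[],[],[],
   [],[],[],[]]

def tab29 : List (List (ℤ × ℤ × ℤ × ℤ)) :=
  [[],[],[(2,1,-28,2)],[(3,1,-9,3)],[(4,1,-4,4)],[(5,1,-2,5)],
   [(1,5,2,9)],[(-1,4,-2,8)],[(3,4,4,15)],[(-2,3,-1,0)],[(1,3,9,17)],[(4,3,-4,14)],
   [(2,5,1,0)],[(-3,2,-1,0)],[(-1,2,-9,12)],[(1,2,28,14)],[(3,2,-9,14)],[(5,2,-1,0)],
   [(3,5,1,0)],[(-1,3,-4,6)],[(2,3,9,9)],[(5,3,-1,0)],[(1,4,4,5)],[(5,4,-2,4)],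
   [(4,5,2,3)],[(-4,1,-2,7)],[(-3,1,-4,16)],[(-2,1,-9,23)],[(-1,1,-28,26)]]

def tab30 : List (List (ℤ × ℤ × ℤ × ℤ)) :=
  [[],[],[],[],[],[],
   [],[],[],[],[],[],
   [],[],[],[],[],[],
   [],[],[],[],[],[],
   [],[],[],[],[],[]]

def tab31 : List (List (ℤ × ℤ × ℤ × ℤ)) :=
  [[],[],[(2,1,-30,2)],[(3,1,-10,3)],[(4,1,-5,4)],[(5,1,-3,5)],
   [(-1,5,-2,23)],[(4,5,3,24)],[(1,4,5,22)],[(5,4,-3,23)],[(-1,3,-5,19)],[(2,3,10,20)],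
   [(5,3,-2,21)],[(3,5,2,18)],[(-3,2,-2,13)],[(-1,2,-10,14)],[(1,2,30,15)],[(3,2,-10,16)],
   [(5,2,-2,17)],[(2,5,2,12)],[(-2,3,-2,9)],[(1,3,10,10)],[(4,3,-5,11)],[(-1,4,-3,7)],
   [(3,4,5,8)],[(1,5,3,6)],[(-5,1,-2,24)],[(-4,1,-3,25)],[(-3,1,-5,26)],[(-2,1,-10,27)],
   [(-1,1,-30,28)]]

def tab32 : List (List (ℤ × ℤ × ℤ × ℤ)) :=
  [[],[],[],[],[],[],
   [],[],[],[],[],[],
   [],[],[],[],[],[],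
   [],[],[],[],[],[],
   [],[],[],[],[],[],
   [],[]]

def tab33 : List (List (ℤ × ℤ × ℤ × ℤ)) :=
  [[],[],[(2,1,-32,2)],[],[],[(5,1,-3,5)],
   [],[],[(-1,4,-3,20)],[],[],[],
   [],[],[(4,5,3,17)],[],[],[(1,2,32,16)],
   [],[],[(1,5,3,11)],[],[],[],
   [],[],[(5,4,-3,8)],[],[],[(-4,1,-3,23)],
   [],[],[(-1,1,-32,30)]]

def tab34 : List (List (ℤ × ℤ × ℤ × ℤ)) :=
  [[],[],[],[],[],[],
   [],[],[],[],[],[],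
   [],[],[],[],[],[],
   [],[],[],[],[],[],
   [],[],[],[],[],[],
   [],[],[],[]]

def tab35 : List (List (ℤ × ℤ × ℤ × ℤ)) :=
  [[],[],[(2,1,-34,2)],[(3,1,-11,3)],[(4,1,-5,4)],[],
   [],[],[],[(1,4,5,19)],[],[],
   [(1,3,11,21)],[(4,3,-5,18)],[],[],[],[(-1,2,-11,15)],
   [(1,2,34,17)],[(3,2,-11,17)],[],[],[],[(-1,3,-5,8)],
   [(2,3,11,11)],[],[],[(3,4,5,7)],[],[],
   [],[],[(-3,1,-5,22)],[(-2,1,-11,29)],[(-1,1,-34,32)]]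

def tab36 : List (List (ℤ × ℤ × ℤ × ℤ)) :=
  [[],[],[],[],[],[],
   [],[],[],[],[],[],
   [],[],[],[],[],[],
   [],[],[],[],[],[],
   [],[],[],[],[],[],
   [],[],[],[],[],[]]

def tab37 : List (List (ℤ × ℤ × ℤ × ℤ)) :=
  [[],[],[(2,1,-36,2)],[(3,1,-12,3)],[(4,1,-6,4)],[(5,1,-3,5)],
   [(6,1,-2,6)],[(5,6,2,20)],[(3,5,2,19)],[(-1,4,-3,17)],[(3,4,6,27)],[(-1,10,-1,51),(7,3,-1,6)],
   [(-1,3,-6,23)],[(2,3,12,24)],[(5,3,-2,17)],[(1,5,3,14)],[(6,5,-2,15)],[(-3,2,-2,10)],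
   [(-1,2,-12,17)],[(1,2,36,18)],[(3,2,-12,19)],[(5,2,-2,14)],[(-1,5,-2,9)],[(4,5,3,10)],
   [(-2,3,-2,7)],[(1,3,12,12)],[(4,3,-6,13)],[(-10,1,-1,63),(3,7,1,2)],[(1,4,6,9)],[(5,4,-3,7)],
   [(2,5,2,5)],[(1,6,2,4)],[(-5,1,-2,18)],[(-4,1,-3,19)],[(-3,1,-6,32)],[(-2,1,-12,33)],
   [(-1,1,-36,34)]]

def tab38 : List (List (ℤ × ℤ × ℤ × ℤ)) :=
  [[],[],[],[],[],[],
   [],[],[],[],[],[],
   [],[],[],[],[],[],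
   [],[],[],[],[],[],
   [],[],[],[],[],[],
   [],[],[],[],[],[],
   [],[]]

def tab39 : List (List (ℤ × ℤ × ℤ × ℤ)) :=
  [[],[],[(2,1,-38,2)],[],[],[(5,1,-3,5)],
   [],[],[(1,5,3,17)],[],[],[(5,4,-3,17)],
   [],[],[],[],[],[(-5,2,-1,13)],
   [],[],[(1,2,38,19)],[],[],[(-2,5,-1,12)],
   [],[],[],[],[],[(-1,4,-3,5)],
   [],[],[(4,5,3,5)],[],[],[(-4,1,-3,17)],
   [],[],[(-1,1,-38,36)]]

def tab40 : List (List (ℤ × ℤ × ℤ × ℤ)) :=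
  [[],[],[],[],[],[],
   [],[],[],[],[],[],
   [],[],[],[],[],[],
   [],[],[],[],[],[],
   [],[],[],[],[],[],
   [],[],[],[],[],[],
   [],[],[],[]]

def tab41 : List (List (ℤ × ℤ × ℤ × ℤ)) :=
  [[],[],[(2,1,-40,2)],[(3,1,-13,3)],[(4,1,-6,4)],[(5,1,-4,5)],
   [(6,1,-2,6)],[(1,6,2,16)],[(-1,5,-2,15)],[(4,5,4,32)],[(-1,4,-4,29)],[(3,4,6,24)],
   [(2,7,1,21)],[(-2,3,-2,12)],[(1,3,13,25)],[(4,3,-6,22)],[(-2,5,-1,17)],[(3,5,2,12)],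
   [(-5,2,-1,12)],[(-3,2,-2,8)],[(-1,2,-13,18)],[(1,2,40,20)],[(3,2,-13,20)],[(5,2,-2,12)],
   [(7,2,-1,18)],[(2,5,2,8)],[(7,5,-1,13)],[(-1,3,-6,10)],[(2,3,13,13)],[(5,3,-2,8)],
   [(5,7,1,9)],[(1,4,6,8)],[(5,4,-4,11)],[(1,5,4,8)],[(6,5,-2,5)],[(5,6,2,4)],
   [(-5,1,-2,14)],[(-4,1,-4,35)],[(-3,1,-6,28)],[(-2,1,-13,35)],[(-1,1,-40,38)]]

def tab42 : List (List (ℤ × ℤ × ℤ × ℤ)) :=
  [[],[],[],[],[],[],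
   [],[],[],[],[],[],
   [],[],[],[],[],[],
   [],[],[],[],[],[],
   [],[],[],[],[],[],
   [],[],[],[],[],[],
   [],[],[],[],[],[]]

def tab43 : List (List (ℤ × ℤ × ℤ × ℤ)) :=
  [[],[],[(2,1,-42,2)],[(3,1,-14,3)],[(4,1,-7,4)],[(5,1,-4,5)],
   [(6,1,-2,6)],[(-1,6,-2,34)],[(5,6,2,15)],[(2,5,2,14)],[(7,5,-1,23)],[(1,4,7,31)],
   [(5,4,-4,29)],[(5,7,1,20)],[(-1,3,-7,27)],[(2,3,14,28)],[(5,3,-2,13)],[(-1,5,-2,10)],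
   [(4,5,4,23)],[(-5,2,-1,11)],[(-3,2,-2,7)],[(-1,2,-14,20)],[(1,2,42,21)],[(3,2,-14,22)],
   [(5,2,-2,11)],[(7,2,-1,17)],[(1,5,4,15)],[(6,5,-2,8)],[(-2,3,-2,5)],[(1,3,14,14)],
   [(4,3,-7,15)],[(2,7,1,8)],[(-1,4,-4,9)],[(3,4,7,11)],[(-2,5,-1,5)],[(3,5,2,4)],
   [(1,6,2,3)],[(-6,1,-2,35)],[(-5,1,-2,12)],[(-4,1,-4,33)],[(-3,1,-7,38)],[(-2,1,-14,39)],
   [(-1,1,-42,40)]]

def tab44 : List (List (ℤ × ℤ × ℤ × ℤ)) :=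
  [[],[],[],[],[],[],
   [],[],[],[],[],[],
   [],[],[],[],[],[],
   [],[],[],[],[],[],
   [],[],[],[],[],[],
   [],[],[],[],[],[],
   [],[],[],[],[],[],
   [],[]]

def tab45 : List (List (ℤ × ℤ × ℤ × ℤ)) :=
  [[],[],[(2,1,-44,2)],[],[],[],
   [],[],[(8,1,-1,8)],[],[],[],
   [],[],[(8,7,-1,9)],[],[],[(1,8,1,7)],
   [],[],[],[],[],[(1,2,44,22)],
   [],[],[],[],[],[(7,8,1,5)],
   [],[],[(-1,7,-1,3)],[],[],[],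
   [],[],[(-7,1,-1,4)],[],[],[],
   [],[],[(-1,1,-44,42)]]

def tab46 : List (List (ℤ × ℤ × ℤ × ℤ)) :=
  [[],[],[],[],[],[],
   [],[],[],[],[],[],
   [],[],[],[],[],[],
   [],[],[],[],[],[],
   [],[],[],[],[],[],
   [],[],[],[],[],[],
   [],[],[],[],[],[],
   [],[],[],[]]

def tab47 : List (List (ℤ × ℤ × ℤ × ℤ)) :=
  [[],[],[(2,1,-46,2)],[(3,1,-15,3)],[(4,1,-7,4)],[(5,1,-4,5)],
   [(6,1,-3,6)],[(7,1,-2,7)],[(1,6,3,36)],[(7,6,-2,32)],[(3,5,3,35)],[(-3,4,-1,27)],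
   [(1,4,7,28)],[(5,4,-4,26)],[(4,7,1,27)],[(-2,3,-3,28)],[(1,3,15,29)],[(4,3,-7,26)],
   [(7,3,-1,27)],[(1,5,4,20)],[(6,5,-3,27)],[(6,7,2,22)],[(-3,2,-3,20)],[(-1,2,-15,21)],
   [(1,2,46,23)],[(3,2,-15,23)],[(5,2,-3,24)],[(1,7,2,16)],[(-1,5,-3,17)],[(4,5,4,14)],
   [(-4,3,-1,11)],[(-1,3,-7,12)],[(2,3,15,15)],[(5,3,-3,16)],[(3,7,1,11)],[(-1,4,-4,8)],
   [(3,4,7,10)],[(7,4,-1,11)],[(2,5,3,9)],[(-1,6,-2,6)],[(5,6,3,8)],[(-6,1,-2,31)],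
   [(-5,1,-3,38)],[(-4,1,-4,29)],[(-3,1,-7,34)],[(-2,1,-15,41)],[(-1,1,-46,44)]]

def tab48 : List (List (ℤ × ℤ × ℤ × ℤ)) :=
  [[],[],[],[],[],[],
   [],[],[],[],[],[],
   [],[],[],[],[],[],
   [],[],[],[],[],[],
   [],[],[],[],[],[],
   [],[],[],[],[],[],
   [],[],[],[],[],[],
   [],[],[],[],[],[]]

def tab49 : List (List (ℤ × ℤ × ℤ × ℤ)) :=
  [[],[],[(2,1,-48,2)],[(3,1,-16,3)],[(4,1,-8,4)],[(5,1,-4,5)],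
   [(6,1,-3,6)],[],[],[(5,6,3,35)],[(1,5,4,25)],[(6,5,-3,34)],
   [(-1,4,-4,23)],[(3,4,8,36)],[],[],[(-1,3,-8,31)],[(2,3,16,32)],
   [(5,3,-3,29)],[],[(2,5,3,25)],[],[],[(-3,2,-3,19)],
   [(-1,2,-16,23)],[(1,2,48,24)],[(3,2,-16,25)],[(5,2,-3,23)],[],[],
   [(3,5,3,17)],[],[(-2,3,-3,13)],[(1,3,16,16)],[(4,3,-8,17)],[],
   [],[(1,4,8,12)],[(5,4,-4,9)],[(-1,5,-3,8)],[(4,5,4,7)],[(1,6,3,7)],
   [],[],[(-5,1,-3,36)],[(-4,1,-4,27)],[(-3,1,-8,44)],[(-2,1,-16,45)],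
   [(-1,1,-48,46)]]

def tab50 : List (List (ℤ × ℤ × ℤ × ℤ)) :=
  [[],[],[],[],[],[],
   [],[],[],[],[],[],
   [],[],[],[],[],[],
   [],[],[],[],[],[],
   [],[],[],[],[],[],
   [],[],[],[],[],[],
   [],[],[],[],[],[],
   [],[],[],[],[],[],
   [],[]]

def tab51 : List (List (ℤ × ℤ × ℤ × ℤ)) :=
  [[],[],[(2,1,-50,2)],[],[],[(5,1,-5,5)],
   [],[],[(8,1,-1,3)],[],[],[(4,5,5,40)],
   [],[],[(5,4,-5,38)],[],[],[],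
   [],[],[(7,8,1,4)],[],[],[(8,7,-1,4)],
   [],[],[(1,2,50,25)],[],[],[(-1,7,-1,2)],
   [],[],[(1,8,1,2)],[],[],[],
   [],[],[(-1,4,-5,12)],[],[],[(1,5,5,10)],
   [],[],[(-7,1,-1,3)],[],[],[(-4,1,-5,45)],
   [],[],[(-1,1,-50,48)]]

def tab52 : List (List (ℤ × ℤ × ℤ × ℤ)) :=
  [[],[],[],[],[],[],
   [],[],[],[],[],[],
   [],[],[],[],[],[],
   [],[],[],[],[],[],
   [],[],[],[],[],[],
   [],[],[],[],[],[],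
   [],[],[],[],[],[],
   [],[],[],[],[],[],
   [],[],[],[]]

def tab53 : List (List (ℤ × ℤ × ℤ × ℤ)) :=
  [[],[],[(2,1,-52,2)],[(3,1,-17,3)],[(4,1,-8,4)],[(5,1,-5,5)],
   [(6,1,-3,6)],[(7,1,-2,7)],[(8,1,-1,2)],[(1,6,3,31)],[(7,6,-2,27)],[(2,5,3,30)],
   [(7,5,-1,15)],[(-1,4,-5,35)],[(3,4,8,33)],[(-1,7,-1,2)],[(6,7,2,23)],[(-2,3,-3,24)],
   [(1,3,17,33)],[(4,3,-8,30)],[(1,8,1,2)],[(-1,5,-3,22)],[(4,5,5,29)],[(2,7,1,10)],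
   [(-5,2,-1,6)],[(-3,2,-3,17)],[(-1,2,-17,24)],[(1,2,52,26)],[(3,2,-17,26)],[(5,2,-3,21)],
   [(7,2,-1,12)],[(5,7,1,8)],[(1,5,5,19)],[(6,5,-3,16)],[(7,8,1,2)],[(-1,3,-8,14)],
   [(2,3,17,17)],[(5,3,-3,14)],[(1,7,2,9)],[(8,7,-1,2)],[(1,4,8,11)],[(5,4,-5,13)],
   [(-2,5,-1,3)],[(3,5,3,8)],[(-1,6,-2,5)],[(5,6,3,7)],[(-7,1,-1,2)],[(-6,1,-2,25)],
   [(-5,1,-3,32)],[(-4,1,-5,43)],[(-3,1,-8,40)],[(-2,1,-17,47)],[(-1,1,-52,50)]]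

def tab54 : List (List (ℤ × ℤ × ℤ × ℤ)) :=
  [[],[],[],[],[],[],
   [],[],[],[],[],[],
   [],[],[],[],[],[],
   [],[],[],[],[],[],
   [],[],[],[],[],[],
   [],[],[],[],[],[],
   [],[],[],[],[],[],
   [],[],[],[],[],[],
   [],[],[],[],[],[]]

def tab55 : List (List (ℤ × ℤ × ℤ × ℤ)) :=
  [[],[],[(2,1,-54,2)],[(3,1,-18,3)],[(4,1,-9,4)],[],
   [],[(7,1,-2,7)],[(1,7,2,25)],[(-1,6,-2,24)],[],[],
   [],[(-3,4,-1,21)],[(1,4,9,40)],[],[],[(-4,3,-1,18)],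
   [(-1,3,-9,35)],[(2,3,18,36)],[],[],[],[],
   [(3,7,1,17)],[],[],[(-1,2,-18,26)],[(1,2,54,27)],[(3,2,-18,28)],
   [],[],[(4,7,1,13)],[],[],[],
   [],[(1,3,18,18)],[(4,3,-9,19)],[(7,3,-1,12)],[],[],
   [(3,4,9,14)],[(7,4,-1,9)],[],[],[],[(7,6,-2,6)],
   [(6,7,2,5)],[(-6,1,-2,23)],[],[],[(-3,1,-9,50)],[(-2,1,-18,51)],
   [(-1,1,-54,52)]]

def tab56 : List (List (ℤ × ℤ × ℤ × ℤ)) :=
  [[],[],[],[],[],[],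
   [],[],[],[],[],[],
   [],[],[],[],[],[],
   [],[],[],[],[],[],
   [],[],[],[],[],[],
   [],[],[],[],[],[],
   [],[],[],[],[],[],
   [],[],[],[],[],[],
   [],[],[],[],[],[],
   [],[]]

def tab57 : List (List (ℤ × ℤ × ℤ × ℤ)) :=
  [[],[],[(2,1,-56,2)],[],[],[(5,1,-5,5)],
   [],[],[(-1,7,-2,47)],[],[],[(-2,5,-1,10)],
   [],[],[(-1,4,-5,32)],[],[],[(5,7,1,10)],
   [],[],[],[],[],[(1,5,5,26)],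
   [],[],[(-5,2,-1,4)],[],[],[(1,2,56,28)],
   [],[],[(7,2,-1,10)],[],[],[(4,5,5,18)],
   [],[],[],[],[],[(2,7,1,4)],
   [],[],[(5,4,-5,12)],[],[],[(7,5,-1,4)],
   [],[],[(-7,1,-2,48)],[],[],[(-4,1,-5,39)],
   [],[],[(-1,1,-56,54)]]

def tab58 : List (List (ℤ × ℤ × ℤ × ℤ)) :=
  [[],[],[],[],[],[],
   [],[],[],[],[],[],
   [],[],[],[],[],[],
   [],[],[],[],[],[],
   [],[],[],[],[],[],
   [],[],[],[],[],[],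
   [],[],[],[],[],[],
   [],[],[],[],[],[],
   [],[],[],[],[],[],
   [],[],[],[]]

def tab59 : List (List (ℤ × ℤ × ℤ × ℤ)) :=
  [[],[],[(2,1,-58,2)],[(3,1,-19,3)],[(4,1,-9,4)],[(5,1,-5,5)],
   [(6,1,-3,6)],[(7,1,-2,7)],[(8,1,-2,8)],[(9,1,-1,9)],[(1,6,3,26)],[(7,6,-2,22)],
   [(1,5,5,33)],[(6,5,-3,26)],[(8,9,1,11)],[(1,4,9,37)],[(5,4,-5,32)],[(1,7,2,18)],
   [(8,7,-2,39)],[(-2,3,-3,20)],[(1,3,19,37)],[(4,3,-9,34)],[(-1,8,-1,8)],[(7,8,2,34)],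
   [(2,5,3,19)],[(7,5,-1,8)],[(5,7,1,7)],[(-5,2,-1,3)],[(-3,2,-3,14)],[(-1,2,-19,27)],
   [(1,2,58,29)],[(3,2,-19,29)],[(5,2,-3,18)],[(7,2,-1,9)],[(2,7,1,5)],[(-2,5,-1,4)],
   [(3,5,3,13)],[(1,8,2,20)],[(9,8,-1,6)],[(-1,3,-9,16)],[(2,3,19,19)],[(5,3,-3,12)],
   [(-1,7,-2,15)],[(6,7,2,8)],[(-1,4,-5,10)],[(3,4,9,13)],[(1,9,1,3)],[(-1,5,-3,6)],
   [(4,5,5,9)],[(-1,6,-2,4)],[(5,6,3,6)],[(-8,1,-1,5)],[(-7,1,-2,46)],[(-6,1,-2,19)],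
   [(-5,1,-3,26)],[(-4,1,-5,37)],[(-3,1,-9,46)],[(-2,1,-19,53)],[(-1,1,-58,56)]]

def tab60 : List (List (ℤ × ℤ × ℤ × ℤ)) :=
  [[],[],[],[],[],[],
   [],[],[],[],[],[],
   [],[],[],[],[],[],
   [],[],[],[],[],[],
   [],[],[],[],[],[],
   [],[],[],[],[],[],
   [],[],[],[],[],[],
   [],[],[],[],[],[],
   [],[],[],[],[],[],
   [],[],[],[],[],[]]

def tab61 : List (List (ℤ × ℤ × ℤ × ℤ)) :=
  [[],[],[(2,1,-60,2)],[(3,1,-20,3)],[(4,1,-10,4)],[(5,1,-6,5)],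
   [(6,1,-4,6)],[(7,1,-2,7)],[(8,1,-2,8)],[(2,7,1,8)],[(-1,6,-2,19)],[(5,6,4,50)],
   [(-1,5,-4,47)],[(4,5,6,48)],[(-1,13,-1,93),(9,4,-1,17)],[(-1,4,-6,44)],[(3,4,10,45)],[(7,4,-1,19)],
   [(4,7,1,17)],[(-4,3,-1,14)],[(-1,3,-10,39)],[(2,3,20,40)],[(5,3,-4,41)],[(1,8,2,32)],
   [(-2,5,-1,5)],[(3,5,4,36)],[(-1,7,-2,29)],[(6,7,2,14)],[(-5,2,-1,2)],[(-3,2,-4,28)],
   [(-1,2,-20,29)],[(1,2,60,30)],[(3,2,-20,31)],[(5,2,-4,32)],[(7,2,-1,8)],[(1,7,2,10)],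
   [(8,7,-2,23)],[(2,5,4,24)],[(7,5,-1,5)],[(7,8,2,20)],[(-2,3,-4,19)],[(1,3,20,20)],
   [(4,3,-10,21)],[(7,3,-1,10)],[(3,7,1,7)],[(-3,4,-1,5)],[(1,4,10,15)],[(5,4,-6,16)],
   [(-13,1,-1,108),(4,9,1,7)],[(1,5,6,12)],[(6,5,-4,13)],[(1,6,4,10)],[(7,6,-2,5)],[(5,7,1,2)],
   [(-7,1,-2,44)],[(-6,1,-2,17)],[(-5,1,-4,54)],[(-4,1,-6,55)],[(-3,1,-10,56)],[(-2,1,-20,57)],
   [(-1,1,-60,58)]]

def tab62 : List (List (ℤ × ℤ × ℤ × ℤ)) :=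
  [[],[],[],[],[],[],
   [],[],[],[],[],[],
   [],[],[],[],[],[],
   [],[],[],[],[],[],
   [],[],[],[],[],[],
   [],[],[],[],[],[],
   [],[],[],[],[],[],
   [],[],[],[],[],[],
   [],[],[],[],[],[],
   [],[],[],[],[],[],
   [],[]]

def tab63 : List (List (ℤ × ℤ × ℤ × ℤ)) :=
  [[],[],[(2,1,-62,2)],[],[],[(5,1,-6,5)],
   [],[],[],[],[],[(11,1,-1,11)],
   [],[],[],[],[],[(5,4,-6,44)],
   [],[],[(11,10,-1,34)],[],[],[(1,11,1,30)],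
   [],[],[(4,5,6,35)],[],[],[],
   [],[],[(1,2,62,31)],[],[],[],
   [],[],[(1,5,6,23)],[],[],[(10,11,1,18)],
   [],[],[(-1,10,-1,14)],[],[],[(-1,4,-6,14)],
   [],[],[],[],[],[(-10,1,-1,37)],
   [],[],[],[],[],[(-4,1,-6,53)],
   [],[],[(-1,1,-62,60)]]

def tab64 : List (List (ℤ × ℤ × ℤ × ℤ)) :=
  [[],[],[],[],[],[],
   [],[],[],[],[],[],
   [],[],[],[],[],[],
   [],[],[],[],[],[],
   [],[],[],[],[],[],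
   [],[],[],[],[],[],
   [],[],[],[],[],[],
   [],[],[],[],[],[],
   [],[],[],[],[],[],
   [],[],[],[],[],[],
   [],[],[],[]]

def tab65 : List (List (ℤ × ℤ × ℤ × ℤ)) :=
  [[],[],[(2,1,-64,2)],[(3,1,-21,3)],[(4,1,-10,4)],[],
   [],[(7,1,-3,7)],[(8,1,-2,8)],[(7,8,2,42)],[],[],
   [(7,6,-3,52)],[],[],[],[],[(3,4,10,42)],
   [(7,4,-1,16)],[(3,7,1,14)],[],[],[(1,3,21,41)],[(4,3,-10,38)],
   [(7,3,-1,15)],[],[],[],[(1,7,3,35)],[(8,7,-2,28)],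
   [],[],[(-1,2,-21,30)],[(1,2,64,32)],[(3,2,-21,32)],[],
   [],[(-1,7,-2,20)],[(6,7,3,27)],[],[],[],
   [(-4,3,-1,5)],[(-1,3,-10,18)],[(2,3,21,21)],[],[],[(4,7,1,6)],
   [(-3,4,-1,4)],[(1,4,10,14)],[],[],[],[],
   [(-1,6,-3,10)],[],[],[(1,8,2,6)],[(-7,1,-2,40)],[(-6,1,-3,55)],
   [],[],[(-3,1,-10,52)],[(-2,1,-21,59)],[(-1,1,-64,62)]]

def tab66 : List (List (ℤ × ℤ × ℤ × ℤ)) :=
  [[],[],[],[],[],[],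
   [],[],[],[],[],[],
   [],[],[],[],[],[],
   [],[],[],[],[],[],
   [],[],[],[],[],[],
   [],[],[],[],[],[],
   [],[],[],[],[],[],
   [],[],[],[],[],[],
   [],[],[],[],[],[],
   [],[],[],[],[],[],
   [],[],[],[],[],[]]

def tab67 : List (List (ℤ × ℤ × ℤ × ℤ)) :=
  [[],[],[(2,1,-66,2)],[(3,1,-22,3)],[(4,1,-11,4)],[(5,1,-6,5)],
   [(6,1,-4,6)],[(7,1,-3,7)],[(8,1,-2,8)],[(9,1,-1,4)],[(3,7,1,15)],[(-1,6,-3,49)],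
   [(5,6,4,45)],[(-2,5,-1,2)],[(3,5,4,43)],[(1,9,1,4)],[(-3,4,-1,12)],[(1,4,11,49)],
   [(5,4,-6,41)],[(-1,7,-2,32)],[(6,7,3,43)],[(-4,3,-1,10)],[(-1,3,-11,43)],[(2,3,22,44)],
   [(5,3,-4,37)],[(-1,8,-1,3)],[(7,8,2,29)],[(1,5,6,32)],[(6,5,-4,33)],[(2,7,1,2)],
   [(-7,2,-1,26)],[(-5,2,-1,2)],[(-3,2,-4,25)],[(-1,2,-22,32)],[(1,2,66,33)],[(3,2,-22,34)],
   [(5,2,-4,29)],[(7,2,-1,2)],[(-2,7,-1,25)],[(5,7,1,2)],[(-1,5,-4,21)],[(4,5,6,22)],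
   [(1,8,2,17)],[(9,8,-1,3)],[(-2,3,-4,17)],[(1,3,22,22)],[(4,3,-11,23)],[(7,3,-1,8)],
   [(1,7,3,17)],[(8,7,-2,14)],[(-1,4,-6,13)],[(3,4,11,17)],[(7,4,-1,6)],[(8,9,1,2)],
   [(2,5,4,11)],[(7,5,-1,2)],[(1,6,4,9)],[(7,6,-3,11)],[(4,7,1,3)],[(-8,1,-1,2)],
   [(-7,1,-2,38)],[(-6,1,-3,53)],[(-5,1,-4,48)],[(-4,1,-6,49)],[(-3,1,-11,62)],[(-2,1,-22,63)],
   [(-1,1,-66,64)]]

def tab68 : List (List (ℤ × ℤ × ℤ × ℤ)) :=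
  [[],[],[],[],[],[],
   [],[],[],[],[],[],
   [],[],[],[],[],[],
   [],[],[],[],[],[],
   [],[],[],[],[],[],
   [],[],[],[],[],[],
   [],[],[],[],[],[],
   [],[],[],[],[],[],
   [],[],[],[],[],[],
   [],[],[],[],[],[],
   [],[],[],[],[],[],
   [],[]]

def tab69 : List (List (ℤ × ℤ × ℤ × ℤ)) :=
  [[],[],[(2,1,-68,2)],[],[],[(5,1,-6,5)],
   [],[],[(8,1,-2,8)],[],[],[(8,7,-2,38)],
   [],[],[(1,5,6,41)],[],[],[(-1,4,-6,38)],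
   [],[],[(2,7,1,0)],[],[],[],
   [],[],[(1,8,2,27)],[],[],[(7,5,-1,0)],
   [],[],[(-5,2,-1,0)],[],[],[(1,2,68,34)],
   [],[],[(7,2,-1,0)],[],[],[(-2,5,-1,0)],
   [],[],[(7,8,2,17)],[],[],[],
   [],[],[(5,7,1,0)],[],[],[(5,4,-6,14)],
   [],[],[(4,5,6,11)],[],[],[(-1,7,-2,6)],
   [],[],[(-7,1,-2,36)],[],[],[(-4,1,-6,47)],
   [],[],[(-1,1,-68,66)]]

def tab70 : List (List (ℤ × ℤ × ℤ × ℤ)) :=
  [[],[],[],[],[],[],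
   [],[],[],[],[],[],
   [],[],[],[],[],[],
   [],[],[],[],[],[],
   [],[],[],[],[],[],
   [],[],[],[],[],[],
   [],[],[],[],[],[],
   [],[],[],[],[],[],
   [],[],[],[],[],[],
   [],[],[],[],[],[],
   [],[],[],[],[],[],
   [],[],[],[]]

def tab71 : List (List (ℤ × ℤ × ℤ × ℤ)) :=
  [[],[],[(2,1,-70,2)],[(3,1,-23,3)],[(4,1,-11,4)],[(5,1,-7,5)],
   [(6,1,-4,6)],[(7,1,-3,7)],[(8,1,-2,8)],[(1,8,2,36)],[(-1,7,-2,35)],[(6,7,3,48)],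
   [(1,6,4,41)],[(7,6,-3,47)],[(-1,5,-4,39)],[(4,5,7,56)],[(2,9,1,43)],[(-3,4,-1,9)],
   [(1,4,11,46)],[(5,4,-7,53)],[(-2,7,-1,39)],[(5,7,2,50)],[],[(-2,3,-4,32)],
   [(1,3,23,45)],[(4,3,-11,42)],[(7,3,-1,11)],[],[(-2,5,-2,41)],[(3,5,4,30)],
   [],[(4,7,1,8)],[(-7,2,-1,24)],[(-5,2,-2,32)],[(-3,2,-4,23)],[(-1,2,-23,33)],
   [(1,2,70,35)],[(3,2,-23,35)],[(5,2,-4,27)],[(7,2,-2,38)],[(9,2,-1,32)],[(3,7,1,6)],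
   [],[(2,5,4,20)],[(7,5,-2,29)],[],[(-4,3,-1,3)],[(-1,3,-11,20)],
   [(2,3,23,23)],[(5,3,-4,18)],[],[(2,7,2,20)],[(9,7,-1,17)],[(-1,4,-7,17)],
   [(3,4,11,16)],[(7,4,-1,5)],[(7,9,1,13)],[(1,5,7,14)],[(6,5,-4,11)],[(-1,6,-3,9)],
   [(5,6,4,9)],[(1,7,3,8)],[(8,7,-2,7)],[(7,8,2,6)],[(-7,1,-2,34)],[(-6,1,-3,49)],
   [(-5,1,-4,44)],[(-4,1,-7,65)],[(-3,1,-11,58)],[(-2,1,-23,65)],[(-1,1,-70,68)]]

def tab72 : List (List (ℤ × ℤ × ℤ × ℤ)) :=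
  [[],[],[],[],[],[],
   [],[],[],[],[],[],
   [],[],[],[],[],[],
   [],[],[],[],[],[],
   [],[],[],[],[],[],
   [],[],[],[],[],[],
   [],[],[],[],[],[],
   [],[],[],[],[],[],
   [],[],[],[],[],[],
   [],[],[],[],[],[],
   [],[],[],[],[],[],
   [],[],[],[],[],[]]

def tab73 : List (List (ℤ × ℤ × ℤ × ℤ)) :=
  [[],[],[(2,1,-72,2)],[(3,1,-24,3)],[(4,1,-12,4)],[(5,1,-7,5)],
   [(6,1,-4,6)],[(7,1,-3,7)],[(8,1,-2,8)],[(-1,8,-2,62)],[(7,8,2,35)],[(4,7,1,10)],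
   [(-1,6,-3,44)],[(5,6,4,40)],[(-3,5,-1,37)],[(2,5,4,38)],[(7,5,-2,55)],[(7,9,1,42)],
   [(-1,4,-7,50)],[(3,4,12,54)],[(7,4,-1,10)],[(1,7,3,38)],[(8,7,-2,29)],[(-4,3,-1,6)],
   [(-1,3,-12,47)],[(2,3,24,48)],[(5,3,-4,33)],[(8,3,-1,34)],[(5,8,1,30)],[(-1,5,-4,28)],
   [(4,5,7,41)],[(-2,7,-1,30)],[(5,7,2,39)],[(-7,2,-1,23)],[(-5,2,-2,31)],[(-3,2,-4,22)],
   [(-1,2,-24,35)],[(1,2,72,36)],[(3,2,-24,37)],[(5,2,-4,26)],[(7,2,-2,37)],[(9,2,-1,31)],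
   [(2,7,2,29)],[(9,7,-1,24)],[(1,5,7,27)],[(6,5,-4,20)],[(3,8,1,18)],[(-5,3,-1,14)],
   [(-2,3,-4,15)],[(1,3,24,24)],[(4,3,-12,25)],[(7,3,-1,6)],[(-1,7,-2,11)],[(6,7,3,16)],
   [(-3,4,-1,2)],[(1,4,12,18)],[(5,4,-7,18)],[(2,9,1,12)],[(-2,5,-2,13)],[(3,5,4,10)],
   [(8,5,-1,11)],[(1,6,4,8)],[(7,6,-3,10)],[(3,7,1,2)],[(1,8,2,5)],[(-8,1,-2,63)],
   [(-7,1,-2,32)],[(-6,1,-3,47)],[(-5,1,-4,42)],[(-4,1,-7,63)],[(-3,1,-12,68)],[(-2,1,-24,69)],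
   [(-1,1,-72,70)]]

def tab74 : List (List (ℤ × ℤ × ℤ × ℤ)) :=
  [[],[],[],[],[],[],
   [],[],[],[],[],[],
   [],[],[],[],[],[],
   [],[],[],[],[],[],
   [],[],[],[],[],[],
   [],[],[],[],[],[],
   [],[],[],[],[],[],
   [],[],[],[],[],[],
   [],[],[],[],[],[],
   [],[],[],[],[],[],
   [],[],[],[],[],[],
   [],[],[],[],[],[],
   [],[]]

def tab75 : List (List (ℤ × ℤ × ℤ × ℤ)) :=
  [[],[],[(2,1,-74,2)],[],[],[],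
   [],[],[(8,1,-2,8)],[],[],[],
   [],[],[(14,1,-1,14),(5,8,1,12)],[],[],[(13,14,1,85),(-3,5,-1,2)],
   [],[],[],[],[],[(-1,13,-1,74),(8,3,-1,7)],
   [],[],[],[],[],[(7,8,2,24)],
   [],[],[(-1,7,-2,21)],[],[],[],
   [],[],[(1,2,74,37)],[],[],[],
   [],[],[(8,7,-2,17)],[],[],[(1,8,2,14)],
   [],[],[],[],[],[(14,13,-1,34),(-5,3,-1,7)],
   [],[],[],[],[],[(1,14,1,23),(8,5,-1,12)],
   [],[],[(-13,1,-1,94),(3,8,1,2)],[],[],[],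
   [],[],[(-7,1,-2,30)],[],[],[],
   [],[],[(-1,1,-74,72)]]

def tab76 : List (List (ℤ × ℤ × ℤ × ℤ)) :=
  [[],[],[],[],[],[],
   [],[],[],[],[],[],
   [],[],[],[],[],[],
   [],[],[],[],[],[],
   [],[],[],[],[],[],
   [],[],[],[],[],[],
   [],[],[],[],[],[],
   [],[],[],[],[],[],
   [],[],[],[],[],[],
   [],[],[],[],[],[],
   [],[],[],[],[],[],
   [],[],[],[],[],[],
   [],[],[],[]]

def tab77 : List (List (ℤ × ℤ × ℤ × ℤ)) :=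
  [[],[],[(2,1,-76,2)],[(3,1,-25,3)],[(4,1,-12,4)],[(5,1,-7,5)],
   [(6,1,-5,6)],[],[],[(9,1,-2,9)],[(10,1,-1,10)],[],
   [],[(1,6,5,61)],[],[],[(3,5,5,59)],[(-1,9,-1,10)],
   [(8,9,2,53)],[(-1,4,-7,47)],[(3,4,12,51)],[],[],[],
   [(9,10,1,10)],[(-2,3,-5,48)],[(1,3,25,49)],[(4,3,-12,46)],[],[],
   [(9,8,-2,43)],[(1,5,7,38)],[(6,5,-5,45)],[],[],[],
   [],[(-3,2,-5,35)],[(-1,2,-25,36)],[(1,2,76,38)],[(3,2,-25,38)],[(5,2,-5,39)],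
   [],[],[],[],[(-1,5,-5,29)],[(4,5,7,26)],
   [(-1,8,-2,25)],[],[],[(-1,3,-12,22)],[(2,3,25,25)],[(5,3,-5,26)],
   [(1,10,1,4)],[],[],[],[(1,4,12,17)],[(5,4,-7,17)],
   [(1,9,2,15)],[(10,9,-1,4)],[(2,5,5,15)],[],[],[(5,6,5,13)],
   [],[],[(-9,1,-1,4)],[(-8,1,-2,59)],[],[],
   [(-5,1,-5,68)],[(-4,1,-7,59)],[(-3,1,-12,64)],[(-2,1,-25,71)],[(-1,1,-76,74)]]

def tab78 : List (List (ℤ × ℤ × ℤ × ℤ)) :=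
  [[],[],[],[],[],[],
   [],[],[],[],[],[],
   [],[],[],[],[],[],
   [],[],[],[],[],[],
   [],[],[],[],[],[],
   [],[],[],[],[],[],
   [],[],[],[],[],[],
   [],[],[],[],[],[],
   [],[],[],[],[],[],
   [],[],[],[],[],[],
   [],[],[],[],[],[],
   [],[],[],[],[],[],
   [],[],[],[],[],[]]

def tab79 : List (List (ℤ × ℤ × ℤ × ℤ)) :=
  [[],[],[(2,1,-78,2)],[(3,1,-26,3)],[(4,1,-13,4)],[(5,1,-7,5)],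
   [(6,1,-5,6)],[(7,1,-3,7)],[(8,1,-2,8)],[(9,1,-2,9)],[(1,8,2,29)],[(9,8,-2,58)],
   [(5,7,2,53)],[(-1,6,-3,39)],[(5,6,5,60)],[(15,1,-1,15),(4,9,1,44)],[(1,5,7,49)],[(6,5,-5,58)],
   [(15,14,-1,104),(-4,5,-1,9)],[(-3,4,-1,3)],[(1,4,13,58)],[(5,4,-7,47)],[(14,15,1,97),(-5,4,-1,11)],[(3,7,1,4)],
   [],[(-4,3,-1,2)],[(-1,3,-13,51)],[(2,3,26,52)],[(5,3,-5,49)],[(8,3,-1,30)],
   [(3,8,1,26)],[(-3,5,-1,24)],[(2,5,5,43)],[(7,5,-2,38)],[(1,7,3,27)],[(8,7,-2,20)],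
   [(8,9,2,37)],[(-5,2,-2,28)],[(-3,2,-5,34)],[(-1,2,-26,38)],[(1,2,78,39)],[(3,2,-26,40)],
   [(5,2,-5,38)],[(7,2,-2,34)],[(1,9,2,29)],[(-1,7,-2,14)],[(6,7,3,21)],[(-2,5,-2,24)],
   [(3,5,5,29)],[(8,5,-1,18)],[(5,8,1,16)],[(-5,3,-1,12)],[(-2,3,-5,23)],[(1,3,26,26)],
   [(4,3,-13,27)],[(7,3,-1,4)],[],[(4,7,1,2)],[(1,15,1,35),(9,4,-1,39)],[(-1,4,-7,15)],
   [(3,4,13,20)],[(7,4,-1,3)],[(-1,14,-1,28),(9,5,-1,41)],[(-1,5,-5,14)],[(4,5,7,13)],[(-14,1,-1,117),(5,9,1,6)],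
   [(1,6,5,12)],[(7,6,-3,9)],[(2,7,2,9)],[(-1,8,-2,8)],[(7,8,2,5)],[(-8,1,-2,57)],
   [(-7,1,-2,26)],[(-6,1,-3,41)],[(-5,1,-5,66)],[(-4,1,-7,57)],[(-3,1,-13,74)],[(-2,1,-26,75)],
   [(-1,1,-78,76)]]

def tab80 : List (List (ℤ × ℤ × ℤ × ℤ)) :=
  [[],[],[],[],[],[],
   [],[],[],[],[],[],
   [],[],[],[],[],[],
   [],[],[],[],[],[],
   [],[],[],[],[],[],
   [],[],[],[],[],[],
   [],[],[],[],[],[],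
   [],[],[],[],[],[],
   [],[],[],[],[],[],
   [],[],[],[],[],[],
   [],[],[],[],[],[],
   [],[],[],[],[],[],
   [],[],[],[],[],[],
   [],[]]

def tab81 : List (List (ℤ × ℤ × ℤ × ℤ)) :=
  [[],[],[(2,1,-80,2)],[],[],[(5,1,-8,5)],
   [],[],[(8,1,-2,8)],[],[],[(7,8,2,28)],
   [],[],[(14,1,-1,14),(-3,7,-1,93),(-16,1,-1,147),(3,10,1,5)],[],[],[(4,5,8,64)],
   [],[],[(-1,4,-8,59)],[],[],[(-1,7,-2,22)],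
   [],[],[(14,13,-1,71),(3,10,1,33),(16,17,1,116),(-3,7,-1,13)],[],[],[(1,14,1,65),(-7,3,-1,34),(-1,16,-1,112),(10,3,-1,19)],
   [],[],[(-2,5,-2,35)],[],[],[(2,7,2,34)],
   [],[],[(-5,2,-2,27)],[],[],[(1,2,80,40)],
   [],[],[(7,2,-2,33)],[],[],[(5,7,2,26)],
   [],[],[(7,5,-2,25)],[],[],[(13,14,1,37),(10,3,-1,76),(17,16,-1,52),(-7,3,-1,29)],
   [],[],[(-1,13,-1,31),(7,10,1,77),(1,17,1,48),(10,7,-1,35)],[],[],[(8,7,-2,10)],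
   [],[],[(5,4,-8,21)],[],[],[(1,5,8,16)],
   [],[],[(-13,1,-1,88),(10,7,-1,17),(17,1,-1,17),(7,10,1,43)],[],[],[(1,8,2,4)],
   [],[],[(-7,1,-2,24)],[],[],[(-4,1,-8,75)],
   [],[],[(-1,1,-80,78)]]

def tab82 : List (List (ℤ × ℤ × ℤ × ℤ)) :=
  [[],[],[],[],[],[],
   [],[],[],[],[],[],
   [],[],[],[],[],[],
   [],[],[],[],[],[],
   [],[],[],[],[],[],
   [],[],[],[],[],[],
   [],[],[],[],[],[],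
   [],[],[],[],[],[],
   [],[],[],[],[],[],
   [],[],[],[],[],[],
   [],[],[],[],[],[],
   [],[],[],[],[],[],
   [],[],[],[],[],[],
   [],[],[],[]]

def tab83 : List (List (ℤ × ℤ × ℤ × ℤ)) :=
  [[],[],[(2,1,-82,2)],[(3,1,-27,3)],[(4,1,-13,4)],[(5,1,-8,5)],
   [(6,1,-5,6)],[(7,1,-3,7)],[(8,1,-2,8)],[(9,1,-2,9)],[(10,1,-1,3)],[(11,1,-1,11)],
   [(1,7,3,37)],[(8,7,-2,26)],[(1,6,5,56)],[(7,6,-3,37)],[(10,11,1,23)],[(2,5,5,54)],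
   [(7,5,-2,47)],[],[(-3,4,-1,0)],[(1,4,13,55)],[(5,4,-8,59)],[],
   [(2,7,2,41)],[(1,10,1,5)],[(11,10,-1,20)],[(-2,3,-5,44)],[(1,3,27,53)],[(4,3,-13,50)],
   [(7,3,-1,0)],[(-1,8,-2,38)],[(7,8,2,19)],[(-1,5,-5,40)],[(4,5,8,47)],[],
   [(3,7,1,0)],[(1,9,2,34)],[(10,9,-1,5)],[(-5,2,-2,26)],[(-3,2,-5,32)],[(-1,2,-27,39)],
   [(1,2,82,41)],[(3,2,-27,41)],[(5,2,-5,36)],[(7,2,-2,32)],[(-1,9,-1,3)],[(8,9,2,28)],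
   [(4,7,1,0)],[],[(1,5,8,31)],[(6,5,-5,28)],[(1,8,2,11)],[(9,8,-2,24)],
   [(-4,3,-1,0)],[(-1,3,-13,24)],[(2,3,27,27)],[(5,3,-5,24)],[(-1,10,-1,8)],[(9,10,1,3)],
   [(5,7,2,17)],[],[(-1,4,-8,19)],[(3,4,13,19)],[(7,4,-1,0)],[],
   [(-2,5,-2,11)],[(3,5,5,14)],[(1,11,1,5)],[(-1,6,-3,7)],[(5,6,5,12)],[(-1,7,-2,4)],
   [(6,7,3,7)],[(-10,1,-1,17)],[(-9,1,-1,5)],[(-8,1,-2,53)],[(-7,1,-2,22)],[(-6,1,-3,37)],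
   [(-5,1,-5,62)],[(-4,1,-8,73)],[(-3,1,-13,70)],[(-2,1,-27,77)],[(-1,1,-82,80)]]

def tab84 : List (List (ℤ × ℤ × ℤ × ℤ)) :=
  [[],[],[],[],[],[],
   [],[],[],[],[],[],
   [],[],[],[],[],[],
   [],[],[],[],[],[],
   [],[],[],[],[],[],
   [],[],[],[],[],[],
   [],[],[],[],[],[],
   [],[],[],[],[],[],
   [],[],[],[],[],[],
   [],[],[],[],[],[],
   [],[],[],[],[],[],
   [],[],[],[],[],[],
   [],[],[],[],[],[],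
   [],[],[],[],[],[]]

def tab85 : List (List (ℤ × ℤ × ℤ × ℤ)) :=
  [[],[],[(2,1,-84,2)],[(3,1,-28,3)],[(4,1,-14,4)],[],
   [],[(7,1,-4,7)],[(8,1,-3,8)],[(9,1,-2,9)],[],[],
   [(-1,7,-3,71)],[(6,7,4,72)],[(-1,6,-4,69)],[],[],[],
   [],[(1,9,2,46)],[],[],[(3,4,14,63)],[(7,4,-2,64)],
   [(-2,7,-1,29)],[],[],[(-4,3,-2,54)],[(-1,3,-14,55)],[(2,3,28,56)],
   [],[],[(1,8,3,52)],[(9,8,-2,38)],[],[],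
   [],[(4,7,2,48)],[(2,9,1,23)],[(-7,2,-1,17)],[],[],
   [(-1,2,-28,41)],[(1,2,84,42)],[(3,2,-28,43)],[],[],[(9,2,-1,25)],
   [(7,9,1,19)],[(3,7,2,36)],[],[],[],[(-1,8,-2,22)],
   [(7,8,3,32)],[],[],[(1,3,28,28)],[(4,3,-14,29)],[(7,3,-2,30)],
   [],[],[(9,7,-1,13)],[(-3,4,-2,20)],[(1,4,14,21)],[],
   [],[(8,9,2,14)],[],[],[],[],
   [(7,6,-4,15)],[(1,7,4,12)],[(8,7,-3,13)],[],[],[(-8,1,-2,51)],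
   [(-7,1,-3,76)],[(-6,1,-4,77)],[],[],[(-3,1,-14,80)],[(-2,1,-28,81)],
   [(-1,1,-84,82)]]

def tab86 : List (List (ℤ × ℤ × ℤ × ℤ)) :=
  [[],[],[],[],[],[],
   [],[],[],[],[],[],
   [],[],[],[],[],[],
   [],[],[],[],[],[],
   [],[],[],[],[],[],
   [],[],[],[],[],[],
   [],[],[],[],[],[],
   [],[],[],[],[],[],
   [],[],[],[],[],[],
   [],[],[],[],[],[],
   [],[],[],[],[],[],
   [],[],[],[],[],[],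
   [],[],[],[],[],[],
   [],[],[],[],[],[],
   [],[]]

def tab87 : List (List (ℤ × ℤ × ℤ × ℤ)) :=
  [[],[],[(2,1,-86,2)],[],[],[(5,1,-8,5)],
   [],[],[(8,1,-3,8)],[],[],[(1,8,3,71)],
   [],[],[(14,1,-1,14),(3,7,2,63)],[],[],[(-2,5,-2,42)],
   [],[],[(-1,13,-1,73),(7,4,-2,20)],[],[],[(5,4,-8,56)],
   [],[],[(8,7,-3,59)],[],[],[],
   [],[],[(13,14,1,62),(-4,3,-2,23)],[],[],[(1,5,8,44)],
   [],[],[(5,7,2,31)],[],[],[(-5,2,-2,24)],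
   [],[],[(1,2,86,43)],[],[],[(7,2,-2,30)],
   [],[],[(2,7,2,23)],[],[],[(4,5,8,30)],
   [],[],[(1,14,1,34),(7,3,-2,51)],[],[],[],
   [],[],[(-1,7,-3,23)],[],[],[(-1,4,-8,18)],
   [],[],[(14,13,-1,23),(-3,4,-2,54)],[],[],[(7,5,-2,12)],
   [],[],[(-13,1,-1,82),(4,7,2,11)],[],[],[(7,8,3,11)],
   [],[],[(-7,1,-3,74)],[],[],[(-4,1,-8,69)],
   [],[],[(-1,1,-86,84)]]

def tab88 : List (List (ℤ × ℤ × ℤ × ℤ)) :=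
  [[],[],[],[],[],[],
   [],[],[],[],[],[],
   [],[],[],[],[],[],
   [],[],[],[],[],[],
   [],[],[],[],[],[],
   [],[],[],[],[],[],
   [],[],[],[],[],[],
   [],[],[],[],[],[],
   [],[],[],[],[],[],
   [],[],[],[],[],[],
   [],[],[],[],[],[],
   [],[],[],[],[],[],
   [],[],[],[],[],[],
   [],[],[],[],[],[],
   [],[],[],[]]

def tab89 : List (List (ℤ × ℤ × ℤ × ℤ)) :=
  [[],[],[(2,1,-88,2)],[(3,1,-29,3)],[(4,1,-14,4)],[(5,1,-8,5)],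
   [(6,1,-5,6)],[(7,1,-4,7)],[(8,1,-3,8)],[(9,1,-2,9)],[(1,9,2,49)],[(-1,8,-2,48)],
   [(7,8,3,70)],[(2,7,2,44)],[(9,7,-1,33)],[(1,6,5,51)],[(7,6,-4,67)],[(17,1,-1,17),(4,11,1,114),(-11,1,-1,3)],
   [(1,5,8,57)],[(6,5,-5,50)],[(2,9,1,29)],[(1,17,1,140),(11,4,-1,34),(-1,11,-1,5)],[(-1,4,-8,53)],[(3,4,14,60)],
   [(7,4,-2,61)],[],[(4,7,2,57)],[],[(-5,3,-1,19)],[(-2,3,-5,40)],
   [(1,3,29,57)],[(4,3,-14,54)],[(7,3,-2,55)],[],[(5,8,1,20)],[(-3,5,-1,18)],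
   [(2,5,5,37)],[(7,5,-2,32)],[(-1,7,-3,45)],[(6,7,4,46)],[(17,16,-1,104),(-4,7,-1,53),(11,12,1,5)],[(-7,2,-1,15)],
   [(-5,2,-2,23)],[(-3,2,-5,29)],[(-1,2,-29,42)],[(1,2,88,44)],[(3,2,-29,44)],[(5,2,-5,33)],
   [(7,2,-2,29)],[(9,2,-1,23)],[(-1,16,-1,80),(11,7,-1,73),(1,12,1,3)],[(1,7,4,34)],[(8,7,-3,35)],[(-2,5,-2,20)],
   [(3,5,5,25)],[(8,5,-1,14)],[(3,8,1,12)],[],[(-4,3,-2,25)],[(-1,3,-14,26)],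
   [(2,3,29,29)],[(5,3,-5,22)],[(8,3,-1,13)],[],[(3,7,2,23)],[],
   [(-3,4,-2,19)],[(1,4,14,20)],[(5,4,-8,19)],[(16,17,1,44),(-7,4,-1,92),(12,11,-1,3)],[(7,9,1,9)],[(-1,5,-5,12)],
   [(4,5,8,15)],[(-16,1,-1,167),(7,11,1,12),(12,1,-1,5)],[(-1,6,-4,13)],[(5,6,5,11)],[(-2,7,-1,5)],[(5,7,2,8)],
   [(1,8,3,10)],[(9,8,-2,8)],[(8,9,2,7)],[(-8,1,-2,47)],[(-7,1,-3,72)],[(-6,1,-4,73)],
   [(-5,1,-5,56)],[(-4,1,-8,67)],[(-3,1,-14,76)],[(-2,1,-29,83)],[(-1,1,-88,86)]]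

def tab90 : List (List (ℤ × ℤ × ℤ × ℤ)) :=
  [[],[],[],[],[],[],
   [],[],[],[],[],[],
   [],[],[],[],[],[],
   [],[],[],[],[],[],
   [],[],[],[],[],[],
   [],[],[],[],[],[],
   [],[],[],[],[],[],
   [],[],[],[],[],[],
   [],[],[],[],[],[],
   [],[],[],[],[],[],
   [],[],[],[],[],[],
   [],[],[],[],[],[],
   [],[],[],[],[],[],
   [],[],[],[],[],[],
   [],[],[],[],[],[]]

def tab91 : List (List (ℤ × ℤ × ℤ × ℤ)) :=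
  [[],[],[(2,1,-90,2)],[(3,1,-30,3)],[(4,1,-15,4)],[(5,1,-9,5)],
   [(6,1,-6,6)],[],[],[(9,1,-2,9)],[(-1,9,-2,79)],[(8,9,2,48)],
   [(5,8,1,26)],[],[],[],[(5,6,6,75)],[(-1,16,-1,147),(11,5,-1,32),(1,14,1,26)],
   [(-1,5,-6,71)],[(4,5,9,72)],[(9,5,-1,73)],[],[],[(1,4,15,67)],
   [(5,4,-9,68)],[(9,4,-1,69)],[],[],[],[],
   [(-1,3,-15,59)],[(2,3,30,60)],[(5,3,-6,61)],[(8,3,-1,22)],[(-1,8,-2,33)],[],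
   [],[(3,5,6,54)],[(8,5,-1,19)],[],[],[(5,9,1,50)],
   [],[],[(-3,2,-6,43)],[(-1,2,-30,44)],[(1,2,90,45)],[(3,2,-30,46)],
   [(5,2,-6,47)],[],[],[(4,9,1,40)],[],[],
   [(-3,5,-1,11)],[(2,5,6,36)],[],[],[(9,8,-2,21)],[(-5,3,-1,8)],
   [(-2,3,-6,29)],[(1,3,30,30)],[(4,3,-15,31)],[],[],[],
   [],[(-5,4,-1,21)],[(-1,4,-9,22)],[(3,4,15,23)],[],[],
   [(-4,5,-1,17)],[(1,5,9,18)],[(6,5,-6,19)],[(-16,1,-1,165),(5,11,1,14),(14,1,-1,14)],[(1,6,6,15)],[],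
   [],[],[(3,8,1,4)],[(1,9,2,6)],[(-9,1,-2,80)],[(-8,1,-2,45)],
   [],[],[(-5,1,-6,84)],[(-4,1,-9,85)],[(-3,1,-15,86)],[(-2,1,-30,87)],
   [(-1,1,-90,88)]]

def tab92 : List (List (ℤ × ℤ × ℤ × ℤ)) :=
  [[],[],[],[],[],[],
   [],[],[],[],[],[],
   [],[],[],[],[],[],
   [],[],[],[],[],[],
   [],[],[],[],[],[],
   [],[],[],[],[],[],
   [],[],[],[],[],[],
   [],[],[],[],[],[],
   [],[],[],[],[],[],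
   [],[],[],[],[],[],
   [],[],[],[],[],[],
   [],[],[],[],[],[],
   [],[],[],[],[],[],
   [],[],[],[],[],[],
   [],[],[],[],[],[],
   [],[]]

def tab93 : List (List (ℤ × ℤ × ℤ × ℤ)) :=
  [[],[],[(2,1,-92,2)],[],[],[(5,1,-9,5)],
   [],[],[(8,1,-3,8)],[],[],[(11,1,-1,11)],
   [],[],[(5,7,2,41)],[],[],[(1,11,1,14)],
   [],[],[(7,5,-2,39)],[],[],[(-1,4,-9,65)],
   [],[],[],[],[],[(11,10,-1,13)],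
   [],[],[],[],[],[(1,8,3,47)],
   [],[],[(4,5,9,53)],[],[],[(8,7,-3,44)],
   [],[],[(-5,2,-2,21)],[],[],[(1,2,92,46)],
   [],[],[(7,2,-2,27)],[],[],[(-1,7,-3,32)],
   [],[],[(1,5,9,35)],[],[],[(7,8,3,29)],
   [],[],[],[],[],[(-1,10,-1,5)],
   [],[],[],[],[],[(5,4,-9,23)],
   [],[],[(-2,5,-2,9)],[],[],[(10,11,1,4)],
   [],[],[(2,7,2,7)],[],[],[(-10,1,-1,7)],
   [],[],[(-7,1,-3,68)],[],[],[(-4,1,-9,83)],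
   [],[],[(-1,1,-92,90)]]

def tab94 : List (List (ℤ × ℤ × ℤ × ℤ)) :=
  [[],[],[],[],[],[],
   [],[],[],[],[],[],
   [],[],[],[],[],[],
   [],[],[],[],[],[],
   [],[],[],[],[],[],
   [],[],[],[],[],[],
   [],[],[],[],[],[],
   [],[],[],[],[],[],
   [],[],[],[],[],[],
   [],[],[],[],[],[],
   [],[],[],[],[],[],
   [],[],[],[],[],[],
   [],[],[],[],[],[],
   [],[],[],[],[],[],
   [],[],[],[],[],[],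
   [],[],[],[]]

def tab95 : List (List (ℤ × ℤ × ℤ × ℤ)) :=
  [[],[],[(2,1,-94,2)],[(3,1,-31,3)],[(4,1,-15,4)],[],
   [],[(7,1,-4,7)],[(8,1,-3,8)],[(9,1,-2,9)],[],[],
   [(1,8,3,64)],[(9,8,-2,44)],[(3,7,2,63)],[],[],[(7,6,-4,62)],
   [],[],[],[],[(8,9,2,39)],[(-3,4,-2,54)],
   [(1,4,15,64)],[],[],[(-1,7,-3,52)],[(6,7,4,53)],[],
   [],[],[(1,3,31,61)],[(4,3,-15,58)],[(7,3,-2,51)],[],
   [],[],[],[],[],[],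
   [(9,7,-1,19)],[(7,9,1,18)],[(-7,2,-1,12)],[],[],[(-1,2,-31,45)],
   [(1,2,94,47)],[(3,2,-31,47)],[],[],[(9,2,-1,20)],[(2,9,1,14)],
   [(-2,7,-1,13)],[],[],[],[],[],
   [],[],[(-4,3,-2,23)],[(-1,3,-15,28)],[(2,3,31,31)],[],
   [],[],[(1,7,4,21)],[(8,7,-3,22)],[],[],
   [(3,4,15,22)],[(7,4,-2,20)],[(1,9,2,11)],[],[],[],
   [],[(-1,6,-4,12)],[],[],[(4,7,2,11)],[(-1,8,-2,6)],
   [(7,8,3,10)],[],[],[(-8,1,-2,41)],[(-7,1,-3,66)],[(-6,1,-4,67)],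
   [],[],[(-3,1,-15,82)],[(-2,1,-31,89)],[(-1,1,-94,92)]]

def tab96 : List (List (ℤ × ℤ × ℤ × ℤ)) :=
  [[],[],[],[],[],[],
   [],[],[],[],[],[],
   [],[],[],[],[],[],
   [],[],[],[],[],[],
   [],[],[],[],[],[],
   [],[],[],[],[],[],
   [],[],[],[],[],[],
   [],[],[],[],[],[],
   [],[],[],[],[],[],
   [],[],[],[],[],[],
   [],[],[],[],[],[],
   [],[],[],[],[],[],
   [],[],[],[],[],[],
   [],[],[],[],[],[],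
   [],[],[],[],[],[],
   [],[],[],[],[],[]]

def tab97 : List (List (ℤ × ℤ × ℤ × ℤ)) :=
  [[],[],[(2,1,-96,2)],[(3,1,-32,3)],[(4,1,-16,4)],[(5,1,-9,5)],
   [(6,1,-6,6)],[(7,1,-4,7)],[(8,1,-3,8)],[(9,1,-2,9)],[(10,1,-2,10)],[(11,1,-1,11)],
   [(-1,8,-2,41)],[(7,8,3,63)],[(1,7,4,61)],[(8,7,-3,62)],[(-1,6,-4,59)],[(5,6,6,70)],
   [],[(-2,5,-2,34)],[(3,5,6,67)],[(8,5,-1,20)],[],[],
   [(-1,4,-9,62)],[(3,4,16,72)],[(7,4,-2,55)],[],[(2,7,2,31)],[(-1,10,-1,9)],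
   [(9,10,2,59)],[(-4,3,-2,46)],[(-1,3,-16,63)],[(2,3,32,64)],[(5,3,-6,57)],[(8,3,-1,18)],
   [],[(5,8,1,15)],[],[(1,5,9,50)],[(6,5,-6,51)],[],
   [(3,7,2,41)],[(-1,9,-2,46)],[(8,9,2,27)],[(10,11,1,8)],[(-5,2,-2,19)],[(-3,2,-6,40)],
   [(-1,2,-32,47)],[(1,2,96,48)],[(3,2,-32,49)],[(5,2,-6,44)],[(7,2,-2,25)],[(1,11,1,6)],
   [(1,9,2,21)],[(10,9,-2,38)],[(4,7,2,31)],[],[(-1,5,-6,33)],[(4,5,9,34)],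
   [],[(3,8,1,9)],[],[(-5,3,-1,6)],[(-2,3,-6,27)],[(1,3,32,32)],
   [(4,3,-16,33)],[(7,3,-2,26)],[(1,10,2,25)],[(11,10,-1,5)],[(5,7,2,13)],[],
   [(-3,4,-2,17)],[(1,4,16,24)],[(5,4,-9,22)],[],[],[(-3,5,-1,4)],
   [(2,5,6,17)],[(7,5,-2,10)],[],[(1,6,6,14)],[(7,6,-4,13)],[(-1,7,-3,10)],
   [(6,7,4,11)],[(1,8,3,9)],[(9,8,-2,7)],[(-10,1,-1,3)],[(-9,1,-2,74)],[(-8,1,-2,39)],
   [(-7,1,-3,64)],[(-6,1,-4,65)],[(-5,1,-6,78)],[(-4,1,-9,79)],[(-3,1,-16,92)],[(-2,1,-32,93)],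
   [(-1,1,-96,94)]]

def tab98 : List (List (ℤ × ℤ × ℤ × ℤ)) :=
  [[],[],[],[],[],[],
   [],[],[],[],[],[],
   [],[],[],[],[],[],
   [],[],[],[],[],[],
   [],[],[],[],[],[],
   [],[],[],[],[],[],
   [],[],[],[],[],[],
   [],[],[],[],[],[],
   [],[],[],[],[],[],
   [],[],[],[],[],[],
   [],[],[],[],[],[],
   [],[],[],[],[],[],
   [],[],[],[],[],[],
   [],[],[],[],[],[],
   [],[],[],[],[],[],
   [],[],[],[],[],[],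
   [],[]]

def tab99 : List (List (ℤ × ℤ × ℤ × ℤ)) :=
  [[],[],[(2,1,-98,2)],[],[],[(5,1,-9,5)],
   [],[],[(8,1,-3,8)],[],[],[],
   [],[],[(-1,7,-3,59)],[],[],[(17,1,-1,17),(-3,10,-1,195),(-22,1,-1,267),(3,13,1,8),(8,1,-3,8)],
   [],[],[(1,5,9,65)],[],[],[],
   [],[],[(5,4,-9,62)],[],[],[(5,7,2,30)],
   [],[],[(17,16,-1,120),(3,13,1,67),(22,23,1,202),(-3,10,-1,30),(8,7,-3,49)],[],[],[(1,17,1,112),(-10,3,-1,69),(-1,22,-1,197),(13,3,-1,38),(1,8,3,42)],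
   [],[],[(7,8,3,44)],[],[],[(7,5,-2,26)],
   [],[],[],[],[],[(-5,2,-2,18)],
   [],[],[(1,2,98,49)],[],[],[(7,2,-2,24)],
   [],[],[],[],[],[(-2,5,-2,16)],
   [],[],[(1,8,3,26)],[],[],[(16,17,1,62),(13,3,-1,149),(23,22,-1,93),(-10,3,-1,64),(7,8,3,26)],
   [],[],[(-1,16,-1,54),(10,13,1,151),(1,23,1,88),(13,10,-1,72),(-1,7,-3,19)],[],[],[(2,7,2,12)],
   [],[],[(-1,4,-9,20)],[],[],[],
   [],[],[(4,5,9,17)],[],[],[(-16,1,-1,157),(13,10,-1,23),(23,1,-1,23),(10,13,1,94),(-7,1,-3,60)],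
   [],[],[(8,7,-3,11)],[],[],[],
   [],[],[(-7,1,-3,62)],[],[],[(-4,1,-9,77)],
   [],[],[(-1,1,-98,96)]]

def tab100 : List (List (ℤ × ℤ × ℤ × ℤ)) :=
  [[],[],[],[],[],[],
   [],[],[],[],[],[],
   [],[],[],[],[],[],
   [],[],[],[],[],[],
   [],[],[],[],[],[],
   [],[],[],[],[],[],
   [],[],[],[],[],[],
   [],[],[],[],[],[],
   [],[],[],[],[],[],
   [],[],[],[],[],[],
   [],[],[],[],[],[],
   [],[],[],[],[],[],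
   [],[],[],[],[],[],
   [],[],[],[],[],[],
   [],[],[],[],[],[],
   [],[],[],[],[],[],
   [],[],[],[]]

def tab101 : List (List (ℤ × ℤ × ℤ × ℤ)) :=
  [[],[],[(2,1,-100,2)],[(3,1,-33,3)],[(4,1,-16,4)],[(5,1,-10,5)],
   [(6,1,-6,6)],[(7,1,-4,7)],[(8,1,-3,8)],[(9,1,-2,9)],[(10,1,-2,10)],[(9,10,2,72)],
   [(7,9,1,23)],[(3,8,1,17)],[(14,1,-1,14)],[(4,7,2,58)],[(16,1,-1,16),(5,9,1,37)],[(1,6,6,66)],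
   [(7,6,-4,57)],[(1,16,1,113),(9,5,-1,10)],[(-1,5,-6,63)],[(4,5,10,80)],[(9,5,-1,65)],[(5,9,1,62)],
   [(-5,4,-1,58)],[(-1,4,-10,74)],[(3,4,16,69)],[(7,4,-2,52)],[(16,15,-1,103),(-5,4,-1,9)],[(1,7,4,48)],
   [(8,7,-3,49)],[(-1,13,-1,56)],[(-5,3,-1,11)],[(-2,3,-6,52)],[(1,3,33,65)],[(4,3,-16,62)],
   [(7,3,-2,47)],[(13,14,1,53)],[(1,8,3,42)],[(9,8,-2,28)],[(-2,5,-2,23)],[(3,5,6,48)],
   [(8,5,-1,13)],[(-2,7,-1,14)],[(5,7,2,23)],[(1,9,2,24)],[(10,9,-2,45)],[(-7,2,-1,9)],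
   [(-5,2,-2,17)],[(-3,2,-6,38)],[(-1,2,-33,48)],[(1,2,100,50)],[(3,2,-33,50)],[(5,2,-6,42)],
   [(7,2,-2,23)],[(9,2,-1,17)],[(-1,9,-2,35)],[(8,9,2,20)],[(2,7,2,17)],[(9,7,-1,12)],
   [(-3,5,-1,7)],[(2,5,6,32)],[(7,5,-2,17)],[(-1,8,-2,16)],[(7,8,3,26)],[(1,14,1,29)],
   [(-4,3,-2,21)],[(-1,3,-16,30)],[(2,3,33,33)],[(5,3,-6,28)],[(8,3,-1,9)],[(14,13,-1,26)],
   [(-1,7,-3,19)],[(6,7,4,20)],[(-1,15,-1,37),(9,4,-1,33)],[(-3,4,-2,16)],[(1,4,16,23)],[(5,4,-10,26)],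
   [(9,4,-1,22)],[(4,9,1,18)],[(-4,5,-1,15)],[(1,5,10,20)],[(6,5,-6,17)],[(15,16,1,27),(-4,5,-1,32)],
   [(-1,6,-4,11)],[(5,6,6,14)],[(-15,1,-1,124),(4,9,1,5)],[(3,7,2,10)],[(-13,1,-1,68)],[(5,8,1,3)],
   [(2,9,1,3)],[(1,10,2,8)],[(-9,1,-2,70)],[(-8,1,-2,35)],[(-7,1,-3,60)],[(-6,1,-4,61)],
   [(-5,1,-6,74)],[(-4,1,-10,95)],[(-3,1,-16,88)],[(-2,1,-33,95)],[(-1,1,-100,98)]]

def tab102 : List (List (ℤ × ℤ × ℤ × ℤ)) :=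
  [[],[],[],[],[],[],
   [],[],[],[],[],[],
   [],[],[],[],[],[],
   [],[],[],[],[],[],
   [],[],[],[],[],[],
   [],[],[],[],[],[],
   [],[],[],[],[],[],
   [],[],[],[],[],[],
   [],[],[],[],[],[],
   [],[],[],[],[],[],
   [],[],[],[],[],[],
   [],[],[],[],[],[],
   [],[],[],[],[],[],
   [],[],[],[],[],[],
   [],[],[],[],[],[],
   [],[],[],[],[],[],
   [],[],[],[],[],[]]

def tab103 : List (List (ℤ × ℤ × ℤ × ℤ)) :=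
  [[],[],[(2,1,-102,2)],[(3,1,-34,3)],[(4,1,-17,4)],[(5,1,-10,5)],
   [(6,1,-6,6)],[(7,1,-4,7)],[(8,1,-3,8)],[(9,1,-2,9)],[(10,1,-2,10)],[(11,1,-1,4)],
   [(12,1,-1,12)],[(1,8,3,57)],[(9,8,-2,37)],[(2,7,2,32)],[(9,7,-1,21)],[(-1,6,-4,54)],
   [(5,6,6,65)],[],[(-3,5,-1,13)],[(2,5,6,62)],[(7,5,-2,31)],[(1,9,2,32)],
   [(10,9,-2,61)],[(-3,4,-2,48)],[(1,4,17,76)],[(5,4,-10,74)],[(-1,11,-1,21)],[(10,11,1,6)],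
   [(4,7,2,47)],[(1,10,2,54)],[(11,10,-1,6)],[(-4,3,-2,42)],[(-1,3,-17,67)],[(2,3,34,68)],
   [(5,3,-6,53)],[(8,3,-1,14)],[],[(3,8,1,11)],[],[(-1,5,-6,46)],
   [(4,5,10,59)],[(1,12,1,17)],[(-1,7,-3,37)],[(6,7,4,38)],[(2,9,1,13)],[(-9,2,-1,43)],
   [(-7,2,-1,8)],[(-5,2,-2,16)],[(-3,2,-6,37)],[(-1,2,-34,50)],[(1,2,102,51)],[(3,2,-34,52)],
   [(5,2,-6,41)],[(7,2,-2,22)],[(9,2,-1,16)],[(-2,9,-1,42)],[(7,9,1,11)],[(1,7,4,28)],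
   [(8,7,-3,29)],[(11,12,1,13)],[(1,5,10,39)],[(6,5,-6,32)],[],[(5,8,1,7)],
   [],[(-5,3,-1,4)],[(-2,3,-6,25)],[(1,3,34,34)],[(4,3,-17,35)],[(7,3,-2,24)],
   [(-1,10,-1,2)],[(9,10,2,24)],[(3,7,2,19)],[(1,11,1,2)],[(12,11,-1,9)],[(-1,4,-10,24)],
   [(3,4,17,26)],[(7,4,-2,18)],[(-1,9,-2,17)],[(8,9,2,10)],[(-2,5,-2,7)],[(3,5,6,16)],
   [(8,5,-1,5)],[],[(1,6,6,13)],[(7,6,-4,12)],[(-2,7,-1,3)],[(5,7,2,6)],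
   [(-1,8,-2,5)],[(7,8,3,9)],[(-11,1,-1,18)],[(-10,1,-1,4)],[(-9,1,-2,68)],[(-8,1,-2,33)],
   [(-7,1,-3,58)],[(-6,1,-4,59)],[(-5,1,-6,72)],[(-4,1,-10,93)],[(-3,1,-17,98)],[(-2,1,-34,99)],
   [(-1,1,-102,100)]]

def tab104 : List (List (ℤ × ℤ × ℤ × ℤ)) :=
  [[],[],[],[],[],[],
   [],[],[],[],[],[],
   [],[],[],[],[],[],
   [],[],[],[],[],[],
   [],[],[],[],[],[],
   [],[],[],[],[],[],
   [],[],[],[],[],[],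
   [],[],[],[],[],[],
   [],[],[],[],[],[],
   [],[],[],[],[],[],
   [],[],[],[],[],[],
   [],[],[],[],[],[],
   [],[],[],[],[],[],
   [],[],[],[],[],[],
   [],[],[],[],[],[],
   [],[],[],[],[],[],
   [],[],[],[],[],[],
   [],[]]

def tab105 : List (List (ℤ × ℤ × ℤ × ℤ)) :=
  [[],[],[(2,1,-104,2)],[],[],[],
   [],[],[],[],[],[],
   [],[],[],[],[],[(17,1,-1,17),(3,10,1,39)],
   [],[],[],[],[],[],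
   [],[],[],[],[],[],
   [],[],[],[],[],[],
   [],[],[(16,17,1,109),(-7,3,-1,12)],[],[],[],
   [],[],[],[],[],[(17,16,-1,95),(-3,7,-1,18)],
   [],[],[],[],[],[(1,2,104,52)],
   [],[],[],[],[],[(-1,16,-1,73),(10,7,-1,26)],
   [],[],[],[],[],[],
   [],[],[(1,17,1,59),(10,3,-1,32)],[],[],[],
   [],[],[],[],[],[],
   [],[],[],[],[],[],
   [],[],[],[],[],[(-16,1,-1,151),(7,10,1,5)],
   [],[],[],[],[],[],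
   [],[],[],[],[],[],
   [],[],[(-1,1,-104,102)]]

def tab106 : List (List (ℤ × ℤ × ℤ × ℤ)) :=
  [[],[],[],[],[],[],
   [],[],[],[],[],[],
   [],[],[],[],[],[],
   [],[],[],[],[],[],
   [],[],[],[],[],[],
   [],[],[],[],[],[],
   [],[],[],[],[],[],
   [],[],[],[],[],[],
   [],[],[],[],[],[],
   [],[],[],[],[],[],
   [],[],[],[],[],[],
   [],[],[],[],[],[],
   [],[],[],[],[],[],
   [],[],[],[],[],[],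
   [],[],[],[],[],[],
   [],[],[],[],[],[],
   [],[],[],[],[],[],
   [],[],[],[]]

def tab107 : List (List (ℤ × ℤ × ℤ × ℤ)) :=
  [[],[],[(2,1,-106,2)],[(3,1,-35,3)],[(4,1,-17,4)],[(5,1,-10,5)],
   [(6,1,-7,6)],[(7,1,-5,7)],[(8,1,-3,8)],[(9,1,-2,9)],[(10,1,-2,10)],[(11,1,-1,2)],
   [(1,9,2,33)],[(10,9,-2,66)],[(5,8,1,12)],[(-2,7,-1,16)],[(5,7,3,89)],[],
   [(1,6,7,86)],[(7,6,-5,87)],[],[(-2,5,-3,82)],[(3,5,7,83)],[(8,5,-1,12)],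
   [(2,9,1,15)],[(11,9,-1,72)],[(-3,4,-2,45)],[(1,4,17,73)],[(5,4,-10,71)],[(9,4,-1,57)],
   [(9,11,1,67)],[(3,7,2,44)],[(-1,10,-1,2)],[(9,10,2,52)],[(-5,3,-1,7)],[(-2,3,-7,68)],
   [(1,3,35,69)],[(4,3,-17,66)],[(7,3,-2,43)],[(1,11,1,2)],[(-1,8,-2,23)],[(7,8,3,39)],
   [(-4,5,-1,43)],[(1,5,10,56)],[(6,5,-7,63)],[],[(1,7,5,59)],[(8,7,-3,36)],
   [(4,9,1,41)],[(-9,2,-1,41)],[(-7,2,-1,6)],[(-5,2,-3,49)],[(-3,2,-7,50)],[(-1,2,-35,51)],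
   [(1,2,106,53)],[(3,2,-35,53)],[(5,2,-7,54)],[(7,2,-3,55)],[(9,2,-1,14)],[(11,2,-1,51)],
   [(5,9,1,33)],[(-1,7,-3,26)],[(6,7,5,45)],[],[(-1,5,-7,41)],[(4,5,10,38)],
   [(9,5,-1,31)],[(1,8,3,23)],[(9,8,-2,15)],[(10,11,1,2)],[(-4,3,-2,19)],[(-1,3,-17,32)],
   [(2,3,35,35)],[(5,3,-7,36)],[(8,3,-1,7)],[(1,10,2,22)],[(11,10,-1,2)],[(4,7,2,18)],
   [(2,11,1,25)],[(-5,4,-1,17)],[(-1,4,-10,23)],[(3,4,17,25)],[(7,4,-2,17)],[(-2,9,-1,20)],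
   [(7,9,1,5)],[(-3,5,-1,2)],[(2,5,7,21)],[(7,5,-3,22)],[],[(-1,6,-5,17)],
   [(5,6,7,18)],[],[(2,7,3,15)],[(9,7,-1,4)],[(3,8,1,2)],[(-1,9,-2,8)],
   [(8,9,2,5)],[(-10,1,-1,2)],[(-9,1,-2,64)],[(-8,1,-2,29)],[(-7,1,-3,54)],[(-6,1,-5,97)],
   [(-5,1,-7,98)],[(-4,1,-10,89)],[(-3,1,-17,94)],[(-2,1,-35,101)],[(-1,1,-106,104)]]

def tab108 : List (List (ℤ × ℤ × ℤ × ℤ)) :=
  [[],[],[],[],[],[],
   [],[],[],[],[],[],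
   [],[],[],[],[],[],
   [],[],[],[],[],[],
   [],[],[],[],[],[],
   [],[],[],[],[],[],
   [],[],[],[],[],[],
   [],[],[],[],[],[],
   [],[],[],[],[],[],
   [],[],[],[],[],[],
   [],[],[],[],[],[],
   [],[],[],[],[],[],
   [],[],[],[],[],[],
   [],[],[],[],[],[],
   [],[],[],[],[],[],
   [],[],[],[],[],[],
   [],[],[],[],[],[],
   [],[],[],[],[],[]]

def tab109 : List (List (ℤ × ℤ × ℤ × ℤ)) :=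
  [[],[],[(2,1,-108,2)],[(3,1,-36,3)],[(4,1,-18,4)],[(5,1,-10,5)],
   [(6,1,-7,6)],[(7,1,-5,7)],[(8,1,-3,8)],[(9,1,-3,9)],[(10,1,-2,10)],[(1,10,2,64)],
   [(-1,9,-2,63)],[(8,9,3,96)],[(3,8,1,10)],[(15,1,-1,15)],[(3,7,2,51)],[(10,7,-1,88)],
   [(-1,6,-5,84)],[(5,6,7,85)],[(2,11,1,73)],[(-4,5,-1,56)],[(1,5,10,73)],[(6,5,-7,82)],
   [(-2,9,-1,69)],[(7,9,1,14)],[(-5,4,-1,52)],[(-1,4,-10,68)],[(3,4,18,81)],[(7,4,-2,46)],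
   [(14,15,1,75)],[(-1,7,-3,42)],[(6,7,5,73)],[(3,10,1,71)],[(-7,3,-1,65)],[(-4,3,-2,38)],
   [(-1,3,-18,71)],[(2,3,36,72)],[(5,3,-7,69)],[(8,3,-1,10)],[(15,14,-1,66)],[(1,8,3,37)],
   [(9,8,-3,68)],[(-3,5,-1,6)],[(2,5,7,61)],[(7,5,-3,62)],[],[(2,7,3,58)],
   [(9,7,-1,11)],[(5,9,1,40)],[(-9,2,-1,40)],[(-7,2,-1,5)],[(-5,2,-3,48)],[(-3,2,-7,49)],
   [(-1,2,-36,53)],[(1,2,108,54)],[(3,2,-36,55)],[(5,2,-7,53)],[(7,2,-3,54)],[(9,2,-1,13)],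
   [(11,2,-1,50)],[(4,9,1,32)],[(-2,7,-1,7)],[(5,7,3,44)],[],[(-2,5,-3,40)],
   [(3,5,7,41)],[(8,5,-1,6)],[(-1,8,-3,40)],[(7,8,3,23)],[(-1,14,-1,36)],[(-5,3,-1,2)],
   [(-2,3,-7,33)],[(1,3,36,36)],[(4,3,-18,37)],[(7,3,-2,22)],[(10,3,-1,37)],[(7,10,1,31)],
   [(1,7,5,29)],[(8,7,-3,18)],[(1,15,1,27)],[(-3,4,-2,14)],[(1,4,18,27)],[(5,4,-10,24)],
   [(9,4,-1,20)],[(2,9,1,4)],[(11,9,-1,21)],[(-1,5,-7,20)],[(4,5,10,19)],[(9,5,-1,16)],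
   [(9,11,1,17)],[(1,6,7,17)],[(7,6,-5,18)],[(-3,7,-1,14)],[(4,7,2,9)],[(-14,1,-1,87)],
   [(5,8,1,2)],[(1,9,3,12)],[(10,9,-2,9)],[(9,10,2,8)],[(-9,1,-2,62)],[(-8,1,-3,99)],
   [(-7,1,-3,52)],[(-6,1,-5,95)],[(-5,1,-7,96)],[(-4,1,-10,87)],[(-3,1,-18,104)],[(-2,1,-36,105)],
   [(-1,1,-108,106)]]

def tab110 : List (List (ℤ × ℤ × ℤ × ℤ)) :=
  [[],[],[],[],[],[],
   [],[],[],[],[],[],
   [],[],[],[],[],[],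
   [],[],[],[],[],[],
   [],[],[],[],[],[],
   [],[],[],[],[],[],
   [],[],[],[],[],[],
   [],[],[],[],[],[],
   [],[],[],[],[],[],
   [],[],[],[],[],[],
   [],[],[],[],[],[],
   [],[],[],[],[],[],
   [],[],[],[],[],[],
   [],[],[],[],[],[],
   [],[],[],[],[],[],
   [],[],[],[],[],[],
   [],[],[],[],[],[],
   [],[],[],[],[],[],
   [],[]]

def tab111 : List (List (ℤ × ℤ × ℤ × ℤ)) :=
  [[],[],[(2,1,-110,2)],[],[],[(5,1,-11,5)],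
   [],[],[(8,1,-3,8)],[],[],[(-1,10,-2,98)],
   [],[],[(1,8,3,50)],[],[],[(8,7,-3,50)],
   [],[],[(20,1,-1,20),(11,14,1,180),(-13,1,-1,9)],[],[],[(4,5,11,88)],
   [],[],[],[],[],[(5,4,-11,83)],
   [],[],[(2,7,3,71)],[],[],[(-1,19,-1,184),(14,3,-1,69),(1,14,1,4)],
   [],[],[],[],[],[],
   [],[],[(-2,5,-3,59)],[],[],[],
   [],[],[(1,20,1,148),(14,11,-1,89),(-1,13,-1,5)],[],[],[(-5,2,-3,47)],
   [],[],[(1,2,110,55)],[],[],[(7,2,-3,53)],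
   [],[],[(19,20,1,122),(-3,11,-1,105),(14,13,-1,7)],[],[],[],
   [],[],[(7,5,-3,41)],[],[],[],
   [],[],[],[],[],[(20,19,-1,86),(-11,3,-1,125),(13,14,1,8)],
   [],[],[(5,7,3,29)],[],[],[(-1,4,-11,27)],
   [],[],[],[],[],[(1,5,11,22)],
   [],[],[(-19,1,-1,250),(3,14,1,14),(14,1,-1,3)],[],[],[(-1,7,-3,8)],
   [],[],[(7,8,3,8)],[],[],[(-10,1,-2,99)],
   [],[],[(-7,1,-3,50)],[],[],[(-4,1,-11,105)],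
   [],[],[(-1,1,-110,108)]]

def tab112 : List (List (ℤ × ℤ × ℤ × ℤ)) :=
  [[],[],[],[],[],[],
   [],[],[],[],[],[],
   [],[],[],[],[],[],
   [],[],[],[],[],[],
   [],[],[],[],[],[],
   [],[],[],[],[],[],
   [],[],[],[],[],[],
   [],[],[],[],[],[],
   [],[],[],[],[],[],
   [],[],[],[],[],[],
   [],[],[],[],[],[],
   [],[],[],[],[],[],
   [],[],[],[],[],[],
   [],[],[],[],[],[],
   [],[],[],[],[],[],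
   [],[],[],[],[],[],
   [],[],[],[],[],[],
   [],[],[],[],[],[],
   [],[],[],[]]

def tab113 : List (List (ℤ × ℤ × ℤ × ℤ)) :=
  [[],[],[(2,1,-112,2)],[(3,1,-37,3)],[(4,1,-18,4)],[(5,1,-11,5)],
   [(6,1,-7,6)],[(7,1,-5,7)],[(8,1,-4,8)],[(9,1,-3,9)],[(10,1,-2,10)],[(11,1,-2,11)],
   [(12,1,-1,12)],[(13,1,-1,13)],[(-1,8,-3,90)],[(7,8,4,98)],[(-1,7,-4,95)],[(6,7,5,84)],
   [(18,1,-1,18),(5,11,1,125),(-12,1,-1,7)],[(1,6,7,81)],[(7,6,-5,82)],[(18,17,-1,160),(-5,6,-1,22),(12,13,1,17)],[(-3,5,-1,5)],[(2,5,7,78)],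
   [(7,5,-3,79)],[(-1,9,-2,52)],[(8,9,3,81)],[(12,13,1,34)],[(-1,4,-11,80)],[(3,4,18,78)],
   [(7,4,-2,43)],[(2,11,1,62)],[(-2,7,-1,9)],[(5,7,3,70)],[(1,10,2,47)],[(11,10,-2,76)],
   [(-5,3,-1,3)],[(-2,3,-7,64)],[(1,3,37,73)],[(4,3,-18,70)],[(7,3,-2,39)],[(-1,11,-1,12)],
   [(10,11,2,69)],[(5,8,1,5)],[(1,18,1,118),(11,5,-1,57),(-1,12,-1,11)],[(-1,5,-7,58)],[(4,5,11,65)],[(-1,12,-1,25)],
   [(11,12,1,12)],[(4,7,2,32)],[(-2,9,-1,47)],[(7,9,1,8)],[(-9,2,-1,38)],[(-7,2,-1,3)],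
   [(-5,2,-3,46)],[(-3,2,-7,47)],[(-1,2,-37,54)],[(1,2,112,56)],[(3,2,-37,56)],[(5,2,-7,51)],
   [(7,2,-3,52)],[(9,2,-1,11)],[(11,2,-1,48)],[(2,9,1,6)],[(11,9,-1,39)],[(3,7,2,24)],
   [(1,12,1,8)],[(13,12,-1,19)],[(1,5,11,43)],[(6,5,-7,40)],[(17,18,1,76),(-6,5,-1,81),(13,12,-1,9)],[(3,8,1,3)],
   [(1,11,2,39)],[(12,11,-1,8)],[(-4,3,-2,17)],[(-1,3,-18,34)],[(2,3,37,37)],[(5,3,-7,34)],
   [(8,3,-1,5)],[(-1,10,-2,32)],[(9,10,2,21)],[(2,7,3,28)],[(9,7,-1,5)],[(9,11,1,24)],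
   [(-3,4,-2,13)],[(1,4,18,26)],[(5,4,-11,28)],[(1,13,1,10)],[(1,9,3,23)],[(10,9,-2,16)],
   [(-2,5,-3,19)],[(3,5,7,20)],[(8,5,-1,3)],[(-1,17,-1,34),(11,6,-1,116),(1,13,1,3)],[(-1,6,-5,16)],[(5,6,7,17)],
   [(-17,1,-1,176),(6,11,1,13),(13,1,-1,13)],[(1,7,5,14)],[(8,7,-4,17)],[(1,8,4,14)],[(9,8,-3,14)],[(-12,1,-1,31)],
   [(-11,1,-1,8)],[(-10,1,-2,97)],[(-9,1,-2,58)],[(-8,1,-3,95)],[(-7,1,-4,104)],[(-6,1,-5,91)],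
   [(-5,1,-7,92)],[(-4,1,-11,103)],[(-3,1,-18,100)],[(-2,1,-37,107)],[(-1,1,-112,110)]]

def tab114 : List (List (ℤ × ℤ × ℤ × ℤ)) :=
  [[],[],[],[],[],[],
   [],[],[],[],[],[],
   [],[],[],[],[],[],
   [],[],[],[],[],[],
   [],[],[],[],[],[],
   [],[],[],[],[],[],
   [],[],[],[],[],[],
   [],[],[],[],[],[],
   [],[],[],[],[],[],
   [],[],[],[],[],[],
   [],[],[],[],[],[],
   [],[],[],[],[],[],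
   [],[],[],[],[],[],
   [],[],[],[],[],[],
   [],[],[],[],[],[],
   [],[],[],[],[],[],
   [],[],[],[],[],[],
   [],[],[],[],[],[],
   [],[],[],[],[],[]]

def tab115 : List (List (ℤ × ℤ × ℤ × ℤ)) :=
  [[],[],[(2,1,-114,2)],[(3,1,-38,3)],[(4,1,-19,4)],[],
   [],[(7,1,-5,7)],[(8,1,-4,8)],[(9,1,-3,9)],[],[],
   [(12,1,-1,12)],[(2,9,1,10)],[(14,1,-1,14)],[],[],[(4,7,2,46)],
   [(18,1,-1,18),(7,11,1,107),(-10,1,-2,93)],[(-1,6,-5,79)],[],[],[(12,11,-1,15)],[],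
   [],[],[],[(-1,17,-1,146),(11,4,-1,32),(1,11,2,75)],[(-3,4,-2,39)],[(1,4,19,85)],
   [],[],[(1,18,1,138),(11,7,-1,35),(-1,10,-2,72)],[(1,7,5,68)],[(8,7,-4,79)],[],
   [],[(-4,3,-2,34)],[(-1,3,-19,75)],[(2,3,38,76)],[],[],
   [(13,14,1,44)],[(-1,8,-3,63)],[(7,8,4,69)],[],[],[],
   [(1,12,1,10)],[(-2,7,-1,6)],[],[],[(8,9,3,57)],[(-1,13,-1,36)],
   [(-7,2,-1,2)],[],[],[(-1,2,-38,56)],[(1,2,114,57)],[(3,2,-38,58)],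
   [],[],[(9,2,-1,10)],[(14,13,-1,32)],[(1,9,3,45)],[],
   [],[(9,7,-1,6)],[(11,12,1,8)],[],[],[],
   [(1,8,4,41)],[(9,8,-3,39)],[(1,14,1,24)],[],[],[(1,3,38,38)],
   [(4,3,-19,39)],[(7,3,-2,20)],[],[],[(-1,7,-4,31)],[(6,7,5,28)],
   [(17,18,1,54),(-4,7,-1,83),(11,10,-2,32)],[],[],[(3,4,19,29)],[(7,4,-2,15)],[(18,17,-1,46),(-7,4,-1,86),(10,11,2,29)],
   [],[],[],[],[(-1,11,-1,3)],[],
   [],[(7,6,-5,17)],[(-17,1,-1,174),(4,11,1,11),(11,1,-2,11)],[(3,7,2,8)],[],[],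
   [(-13,1,-1,54)],[(7,9,1,2)],[(-11,1,-1,6)],[],[],[(-8,1,-3,93)],
   [(-7,1,-4,102)],[(-6,1,-5,89)],[],[],[(-3,1,-19,110)],[(-2,1,-38,111)],
   [(-1,1,-114,112)]]

def tab116 : List (List (ℤ × ℤ × ℤ × ℤ)) :=
  [[],[],[],[],[],[],
   [],[],[],[],[],[],
   [],[],[],[],[],[],
   [],[],[],[],[],[],
   [],[],[],[],[],[],
   [],[],[],[],[],[],
   [],[],[],[],[],[],
   [],[],[],[],[],[],
   [],[],[],[],[],[],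
   [],[],[],[],[],[],
   [],[],[],[],[],[],
   [],[],[],[],[],[],
   [],[],[],[],[],[],
   [],[],[],[],[],[],
   [],[],[],[],[],[],
   [],[],[],[],[],[],
   [],[],[],[],[],[],
   [],[],[],[],[],[],
   [],[],[],[],[],[],
   [],[]]

def tab117 : List (List (ℤ × ℤ × ℤ × ℤ)) :=
  [[],[],[(2,1,-116,2)],[],[],[(5,1,-11,5)],
   [],[],[(8,1,-4,8)],[],[],[(11,1,-2,11)],
   [],[],[],[],[],[(2,7,3,80)],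
   [],[],[(20,1,-1,20),(-3,13,-1,333),(-28,1,-1,423),(3,16,1,11),(11,1,-2,11)],[],[],[(-2,5,-3,74)],
   [],[],[],[],[],[(-1,4,-11,77)],
   [],[],[(1,11,2,75)],[],[],[(-1,10,-2,72)],
   [],[],[(20,19,-1,181),(3,16,1,113),(28,29,1,312),(-3,13,-1,53),(11,10,-2,34)],[],[],[(1,20,1,171),(-13,3,-1,116),(-1,28,-1,306),(16,3,-1,63),(1,11,2,30)],
   [],[],[(1,8,4,67)],[],[],[(1,5,11,62)],
   [],[],[(-1,7,-4,61)],[],[],[],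
   [],[],[(-5,2,-3,44)],[],[],[(1,2,116,58)],
   [],[],[(7,2,-3,50)],[],[],[],
   [],[],[(8,7,-4,47)],[],[],[(4,5,11,42)],
   [],[],[(7,8,4,41)],[],[],[(19,20,1,93),(16,3,-1,246),(29,28,-1,146),(-13,3,-1,111),(10,11,2,18)],
   [],[],[(-1,19,-1,83),(13,16,1,249),(1,29,1,140),(16,13,-1,121),(-1,10,-2,14)],[],[],[(11,10,-2,32)],
   [],[],[(10,11,2,29)],[],[],[(5,4,-11,27)],
   [],[],[],[],[],[(7,5,-3,20)],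
   [],[],[(-19,1,-1,244),(16,13,-1,29),(29,1,-1,29),(13,16,1,163),(-10,1,-2,37)],[],[],[(5,7,3,14)],
   [],[],[],[],[],[(-10,1,-2,93)],
   [],[],[(-7,1,-4,100)],[],[],[(-4,1,-11,99)],
   [],[],[(-1,1,-116,114)]]

def tab118 : List (List (ℤ × ℤ × ℤ × ℤ)) :=
  [[],[],[],[],[],[],
   [],[],[],[],[],[],
   [],[],[],[],[],[],
   [],[],[],[],[],[],
   [],[],[],[],[],[],
   [],[],[],[],[],[],
   [],[],[],[],[],[],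
   [],[],[],[],[],[],
   [],[],[],[],[],[],
   [],[],[],[],[],[],
   [],[],[],[],[],[],
   [],[],[],[],[],[],
   [],[],[],[],[],[],
   [],[],[],[],[],[],
   [],[],[],[],[],[],
   [],[],[],[],[],[],
   [],[],[],[],[],[],
   [],[],[],[],[],[],
   [],[],[],[],[],[],
   [],[],[],[]]

def tab119 : List (List (ℤ × ℤ × ℤ × ℤ)) :=
  [[],[],[(2,1,-118,2)],[(3,1,-39,3)],[(4,1,-19,4)],[(5,1,-11,5)],
   [(6,1,-7,6)],[],[],[(9,1,-3,9)],[(10,1,-2,10)],[(11,1,-2,11)],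
   [(1,10,2,55)],[(11,10,-2,92)],[],[],[(9,8,-3,86)],[],
   [],[(19,1,-1,19),(5,12,1,181),(-16,1,-1,59)],[(1,6,7,76)],[],[],[(-4,5,-1,48)],
   [(1,5,11,81)],[(6,5,-7,74)],[(18,19,1,177),(-7,5,-1,38),(17,16,-1,62)],[(5,9,1,48)],[],[],
   [(1,4,19,82)],[(5,4,-11,77)],[(9,4,-1,48)],[(-1,18,-1,161),(12,7,-1,58),(1,17,1,53)],[],[],
   [],[],[(-5,3,-1,0)],[(-2,3,-7,60)],[(1,3,39,77)],[(4,3,-19,74)],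
   [],[],[],[(3,8,1,0)],[],[(-3,5,-1,0)],
   [(2,5,7,55)],[],[],[],[],[(1,9,3,54)],
   [(10,9,-2,35)],[(10,11,2,56)],[],[],[(-3,2,-7,44)],[(-1,2,-39,57)],
   [(1,2,118,59)],[(3,2,-39,59)],[(5,2,-7,48)],[],[],[(1,11,2,46)],
   [(-1,9,-2,27)],[(8,9,3,44)],[],[],[],[],
   [(3,5,7,37)],[(8,5,-1,0)],[],[(5,8,1,0)],[],[],
   [],[(-1,3,-19,36)],[(2,3,39,39)],[(5,3,-7,32)],[(8,3,-1,0)],[],
   [],[],[],[(19,18,-1,63),(-5,7,-1,140),(16,17,1,23)],[(-5,4,-1,14)],[(-1,4,-11,25)],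
   [(3,4,19,28)],[],[],[(4,9,1,14)],[(1,19,1,47),(12,5,-1,160),(-1,16,-1,14)],[(-1,5,-7,18)],
   [(4,5,11,21)],[(9,5,-1,14)],[],[],[(5,6,7,16)],[(-18,1,-1,205),(7,12,1,17),(17,1,-1,17)],
   [],[],[(-1,8,-3,12)],[],[],[(-1,10,-2,10)],
   [(9,10,2,7)],[(-10,1,-2,91)],[(-9,1,-2,52)],[(-8,1,-3,89)],[],[],
   [(-5,1,-7,86)],[(-4,1,-11,97)],[(-3,1,-19,106)],[(-2,1,-39,113)],[(-1,1,-118,116)]]

def tab120 : List (List (ℤ × ℤ × ℤ × ℤ)) :=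
  [[],[],[],[],[],[],
   [],[],[],[],[],[],
   [],[],[],[],[],[],
   [],[],[],[],[],[],
   [],[],[],[],[],[],
   [],[],[],[],[],[],
   [],[],[],[],[],[],
   [],[],[],[],[],[],
   [],[],[],[],[],[],
   [],[],[],[],[],[],
   [],[],[],[],[],[],
   [],[],[],[],[],[],
   [],[],[],[],[],[],
   [],[],[],[],[],[],
   [],[],[],[],[],[],
   [],[],[],[],[],[],
   [],[],[],[],[],[],
   [],[],[],[],[],[],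
   [],[],[],[],[],[],
   [],[],[],[],[],[]]

def tab : List (List (List (ℤ × ℤ × ℤ × ℤ))) :=
  [tab0, tab1, tab2, tab3, tab4, tab5, tab6, tab7, tab8, tab9, tab10, tab11, tab12, tab13, tab14, tab15, tab16, tab17, tab18, tab19, tab20, tab21, tab22, tab23, tab24, tab25, tab26, tab27, tab28, tab29, tab30, tab31, tab32, tab33, tab34, tab35, tab36, tab37, tab38, tab39, tab40, tab41, tab42, tab43, tab44, tab45, tab46, tab47, tab48, tab49, tab50, tab51, tab52, tab53, tab54, tab55, tab56, tab57, tab58, tab59, tab60, tab61, tab62, tab63, tab64, tab65, tab66, tab67, tab68, tab69, tab70, tab71, tab72, tab73, tab74, tab75, tab76, tab77, tab78, tab79, tab80, tab81, tab82, tab83, tab84, tab85, tab86, tab87, tab88, tab89, tab90, tab91, tab92, tab93, tab94, tab95, tab96, tab97, tab98, tab99, tab100,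 tab101, tab102, tab103, tab104, tab105, tab106, tab107, tab108, tab109, tab110, tab111, tab112, tab113, tab114, tab115, tab116, tab117, tab118, tab119, tab120]

/-- the residue classes not reached. -/
def excList : List (ℕ × ℕ) :=
  [(49, 19), (49, 31), (71, 22), (71, 27), (71, 30), (71, 42), (71, 45), (71, 50),
   (79, 24), (79, 56), (83, 19), (83, 23), (83, 35), (83, 49), (83, 61), (83, 65),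
   (89, 25), (89, 27), (89, 33), (89, 57), (89, 63), (89, 65), (93, 26), (93, 68),
   (95, 18), (95, 29), (95, 37), (95, 59), (95, 67), (95, 78), (97, 18), (97, 22),
   (97, 23), (97, 27), (97, 36), (97, 38), (97, 41), (97, 57), (97, 60), (97, 62),
   (97, 71), (97, 75), (97, 76), (97, 80), (103, 19), (103, 38), (103, 40), (103, 64),
   (103, 66), (103, 85), (105, 23), (105, 32), (105, 44), (105, 62), (105, 74), (105, 83),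
   (107, 17), (107, 20), (107, 45), (107, 63), (107, 88), (107, 91), (109, 46), (109, 64),
   (111, 26), (111, 41), (111, 47), (111, 65), (111, 71), (111, 86), (119, 37), (119, 44),
   (119, 46), (119, 74), (119, 76), (119, 83)]


end Pool.Agent.CS72
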